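import Pool.Agent.Lib.MP_3248c9_gt.Setup

/-!
# Taylor coefficients of the polarised identities
-/

set_option autoImplicit false

open Metric Filter Topology Complex
open scoped ComplexConjugate

namespace Pool.Agent.Lib.MP_3248c9_gt

theorem T_id_mul {n : ℕ} {f : ℂ → ℂ} (hf : ContDiffAt ℂ n f 0) :
    iteratedDeriv n (fun z => z * f z) 0 = n * iteratedDeriv (n - 1) f 0 := by
  rw [iteratedDeriv_fun_mul (f := fun z : ℂ => z) (contDiffAt_id (𝕜 := ℂ)) hf]
  simp only [iteratedDeriv_fun_id_zero]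
  rcases Nat.eq_zero_or_pos n with h | h
  · subst h; simp
  · rw [Finset.sum_eq_single 1]
    · simp
    · intro b _ hb; simp [hb]
    · intro h'; simp at h'; omega

theorem T_const {n : ℕ} (hn : n ≠ 0) (a : ℂ) : iteratedDeriv n (fun _ : ℂ => a) 0 = 0 := by
  rw [iteratedDeriv_const]; simp [hn]

theorem contDiffAt_of_ball {r : ℝ} (hr : 0 < r) {f : ℂ → ℂ} (hf : DifferentiableOn ℂ f (ball 0 r))
    (n : ℕ) : ContDiffAt ℂ n f 0 := by
  have h0D : (0 : ℂ) ∈ ball (0 : ℂ) r := by simpa using hr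
  exact ((hf.analyticOnNhd isOpen_ball) 0 h0D).contDiffAt

theorem iteratedDeriv_eq_of_ball {r : ℝ} (hr : 0 < r) {f g : ℂ → ℂ}
    (h : ∀ z ∈ ball (0 : ℂ) r, f z = g z) (n : ℕ) :
    iteratedDeriv n f 0 = iteratedDeriv n g 0 := by
  have h0D : (0 : ℂ) ∈ ball (0 : ℂ) r := by simpa using hr
  have : f =ᶠ[𝓝 0] g := by
    filter_upwards [isOpen_ball.mem_nhds h0D] with z hz
    exact h z hz
  exact (this.iteratedDeriv n).self_of_nhds

variable {ι : Type*} [Fintype ι]

/-- First relation, with `z` still free. -/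
theorem E1 {r : ℝ} (hr : 0 < r) {A c : ι → ℂ → ℂ}
    (hA : ∀ i, DifferentiableOn ℂ (A i) (ball 0 r))
    (hJ : ∀ z ∈ ball (0 : ℂ) r, ∀ w ∈ ball (0 : ℂ) r,
      ∑ i, (w * deriv (A i) z + cj (A i) w + c i z) ^ 2 = 0) (k : ℕ) (hk : 3 ≤ k) :
    ∀ z ∈ ball (0 : ℂ) r,
      ∑ i, (k * conj (iteratedDeriv (k - 1) (A i) 0) * (deriv (A i) z - deriv (A i) 0)
        + conj (iteratedDeriv k (A i) 0) * (c i z - c i 0)) = 0 := by
  intro z hz
  have h0D : (0 : ℂ) ∈ ball (0 : ℂ) r := by simpa using hr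
  have hB : ∀ i (n : ℕ), ContDiffAt ℂ n (cj (A i)) 0 := fun i n =>
    contDiffAt_of_ball hr (cj_differentiableOn (hA i)) n
  set P2 : ℂ := ∑ i, (deriv (A i) z ^ 2 - deriv (A i) 0 ^ 2) / 2 with hP2
  set P1 : ℂ := ∑ i, (deriv (A i) z * c i z - deriv (A i) 0 * c i 0) with hP1
  set P0 : ℂ := ∑ i, (c i z ^ 2 - c i 0 ^ 2) / 2 with hP0
  have hF : ∀ w ∈ ball (0 : ℂ) r,
      (∑ i, (w * ((deriv (A i) z - deriv (A i) 0) * cj (A i) w) + (c i z - c i 0) * cj (A i) w))
        + (w * (w * P2 + P1) + P0) = (fun _ : ℂ => (0 : ℂ)) w := by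
    intro w hw
    have e1 := hJ z hz w hw
    have e2 := hJ 0 h0D w hw
    have e3 : ∑ i, ((w * deriv (A i) z + cj (A i) w + c i z) ^ 2
        - (w * deriv (A i) 0 + cj (A i) w + c i 0) ^ 2) / 2 = 0 := by
      rw [← Finset.sum_div, Finset.sum_sub_distrib, e1, e2]; simp
    have e4 : (∑ i, (w * ((deriv (A i) z - deriv (A i) 0) * cj (A i) w)
        + (c i z - c i 0) * cj (A i) w)) + (w * (w * P2 + P1) + P0)
        = ∑ i, ((w * deriv (A i) z + cj (A i) w + c i z) ^ 2
        - (w * deriv (A i) 0 + cj (A i) w + c i 0) ^ 2) / 2 := by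
      rw [hP2, hP1, hP0, Finset.mul_sum, ← Finset.sum_add_distrib, Finset.mul_sum,
        ← Finset.sum_add_distrib, ← Finset.sum_add_distrib]
      refine Finset.sum_congr rfl fun i _ => ?_
      ring
    rw [e4, e3]
  have hT := iteratedDeriv_eq_of_ball hr hF k
  rw [iteratedDeriv_fun_add, iteratedDeriv_fun_sum, iteratedDeriv_fun_add, T_id_mul,
    iteratedDeriv_fun_add, T_id_mul, T_const (by omega), T_const (by omega), T_const (by omega),
    T_const (by omega)] at hT
  · simp only [mul_zero, add_zero] at hT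
    refine Eq.trans (Finset.sum_congr rfl fun i _ => ?_) hT
    rw [iteratedDeriv_fun_add, T_id_mul, iteratedDeriv_const_mul_field,
      iteratedDeriv_const_mul_field, iteratedDeriv_cj_zero, iteratedDeriv_cj_zero]
    · ring
    · exact contDiffAt_const.mul (hB i k)
    · exact contDiffAt_id.mul (contDiffAt_const.mul (hB i k))
    · exact contDiffAt_const.mul (hB i k)
  all_goals fun_prop

/-- First relation. -/
theorem X1 {r : ℝ} (hr : 0 < r) {A c : ι → ℂ → ℂ}
    (hA : ∀ i, DifferentiableOn ℂ (A i) (ball 0 r))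
    (hc : ∀ i, DifferentiableOn ℂ (c i) (ball 0 r))
    (hJ : ∀ z ∈ ball (0 : ℂ) r, ∀ w ∈ ball (0 : ℂ) r,
      ∑ i, (w * deriv (A i) z + cj (A i) w + c i z) ^ 2 = 0) (j k : ℕ) (hj : 1 ≤ j)
    (hk : 3 ≤ k) :
    ∑ i, (k * conj (iteratedDeriv (k - 1) (A i) 0) * iteratedDeriv (j + 1) (A i) 0
        + conj (iteratedDeriv k (A i) 0) * iteratedDeriv j (c i) 0) = 0 := by
  have hd : ∀ i (n : ℕ), ContDiffAt ℂ n (deriv (A i)) 0 := fun i n =>
    contDiffAt_of_ball hr ((hA i).deriv isOpen_ball) n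
  have hc' : ∀ i (n : ℕ), ContDiffAt ℂ n (c i) 0 := fun i n =>
    contDiffAt_of_ball hr (hc i) n
  have hT := iteratedDeriv_eq_of_ball hr (g := fun _ => 0) (E1 hr hA hJ k hk) j
  rw [T_const (by omega), iteratedDeriv_fun_sum] at hT
  · refine Eq.trans (Finset.sum_congr rfl fun i _ => ?_) hT
    rw [iteratedDeriv_fun_add, iteratedDeriv_const_mul_field, iteratedDeriv_const_mul_field,
      iteratedDeriv_fun_sub, iteratedDeriv_fun_sub, T_const (by omega), T_const (by omega),
      ← iteratedDeriv_succ']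
    · ring
    all_goals fun_prop
  · intro i _
    fun_prop

/-- Second relation, with `z` still free. -/
theorem E2 {r : ℝ} (hr : 0 < r) {A c : ι → ℂ → ℂ}
    (hA : ∀ i, DifferentiableOn ℂ (A i) (ball 0 r))
    (hc : ∀ i, DifferentiableOn ℂ (c i) (ball 0 r))
    (hJ : ∀ z ∈ ball (0 : ℂ) r, ∀ w ∈ ball (0 : ℂ) r,
      ∑ i, (w * deriv (A i) z + cj (A i) w + c i z) *
        (z * cj (deriv (A i)) w + A i z + cj (c i) w) = 2) (k : ℕ) (hk : 2 ≤ k) :
    ∀ z ∈ ball (0 : ℂ) r,
      ∑ i, (k * (z * (conj (iteratedDeriv k (A i) 0) * deriv (A i) z)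
            + conj (iteratedDeriv (k - 1) (c i) 0) * deriv (A i) z)
          + z * iteratedDeriv k (fun w => cj (A i) w * cj (deriv (A i)) w) 0
          + conj (iteratedDeriv k (A i) 0) * A i z
          + iteratedDeriv k (fun w => cj (A i) w * cj (c i) w) 0
          + z * (conj (iteratedDeriv (k + 1) (A i) 0) * c i z)
          + conj (iteratedDeriv k (c i) 0) * c i z) = 0 := by
  intro z hz
  have h0D : (0 : ℂ) ∈ ball (0 : ℂ) r := by simpa using hr
  have hB : ∀ i (n : ℕ), ContDiffAt ℂ n (cj (A i)) 0 := fun i n =>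
    contDiffAt_of_ball hr (cj_differentiableOn (hA i)) n
  have hb : ∀ i (n : ℕ), ContDiffAt ℂ n (cj (deriv (A i))) 0 := fun i n =>
    contDiffAt_of_ball hr (cj_differentiableOn ((hA i).deriv isOpen_ball)) n
  have hd : ∀ i (n : ℕ), ContDiffAt ℂ n (cj (c i)) 0 := fun i n =>
    contDiffAt_of_ball hr (cj_differentiableOn (hc i)) n
  have hT := iteratedDeriv_eq_of_ball hr (g := fun _ => 2) (hJ z hz) k
  rw [T_const (by omega), iteratedDeriv_fun_sum] at hT
  · refine Eq.trans (Finset.sum_congr rfl fun i _ => ?_) hT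
    have e : (fun w => (w * deriv (A i) z + cj (A i) w + c i z) *
        (z * cj (deriv (A i)) w + A i z + cj (c i) w))
        = fun w => w * (z * deriv (A i) z * cj (deriv (A i)) w + deriv (A i) z * A i z
            + deriv (A i) z * cj (c i) w)
          + z * (cj (A i) w * cj (deriv (A i)) w) + A i z * cj (A i) w
          + cj (A i) w * cj (c i) w + z * c i z * cj (deriv (A i)) w + c i z * A i z
          + c i z * cj (c i) w := by
      funext w; ring
    rw [e, iteratedDeriv_fun_add, iteratedDeriv_fun_add, iteratedDeriv_fun_add,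
      iteratedDeriv_fun_add, iteratedDeriv_fun_add, iteratedDeriv_fun_add, T_id_mul,
      iteratedDeriv_fun_add, iteratedDeriv_fun_add]
    · simp only [iteratedDeriv_const_mul_field]
      rw [T_const (by omega), T_const (by omega)]
      simp only [iteratedDeriv_cj_zero]
      have e1 : iteratedDeriv (k - 1) (deriv (A i)) 0 = iteratedDeriv k (A i) 0 := by
        rw [← iteratedDeriv_succ']
        congr 1; omega
      have e2 : iteratedDeriv k (deriv (A i)) 0 = iteratedDeriv (k + 1) (A i) 0 := by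
        rw [← iteratedDeriv_succ']
      rw [e1, e2]
      ring
    all_goals fun_prop
  · intro i _
    fun_prop

/-- Second relation. -/
theorem X2 {r : ℝ} (hr : 0 < r) {A c : ι → ℂ → ℂ}
    (hA : ∀ i, DifferentiableOn ℂ (A i) (ball 0 r))
    (hc : ∀ i, DifferentiableOn ℂ (c i) (ball 0 r))
    (hJ : ∀ z ∈ ball (0 : ℂ) r, ∀ w ∈ ball (0 : ℂ) r,
      ∑ i, (w * deriv (A i) z + cj (A i) w + c i z) *
        (z * cj (deriv (A i)) w + A i z + cj (c i) w) = 2) (j k : ℕ) (hj : 2 ≤ j) (hk : 2 ≤ k) :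
    ∑ i, (k * (j * (conj (iteratedDeriv k (A i) 0) * iteratedDeriv j (A i) 0)
            + conj (iteratedDeriv (k - 1) (c i) 0) * iteratedDeriv (j + 1) (A i) 0)
          + conj (iteratedDeriv k (A i) 0) * iteratedDeriv j (A i) 0
          + j * (conj (iteratedDeriv (k + 1) (A i) 0) * iteratedDeriv (j - 1) (c i) 0)
          + conj (iteratedDeriv k (c i) 0) * iteratedDeriv j (c i) 0) = 0 := by
  have hA' : ∀ i (n : ℕ), ContDiffAt ℂ n (A i) 0 := fun i n =>
    contDiffAt_of_ball hr (hA i) n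
  have hd : ∀ i (n : ℕ), ContDiffAt ℂ n (deriv (A i)) 0 := fun i n =>
    contDiffAt_of_ball hr ((hA i).deriv isOpen_ball) n
  have hc' : ∀ i (n : ℕ), ContDiffAt ℂ n (c i) 0 := fun i n =>
    contDiffAt_of_ball hr (hc i) n
  have hT := iteratedDeriv_eq_of_ball hr (g := fun _ => 0) (E2 hr hA hc hJ k hk) j
  rw [T_const (by omega), iteratedDeriv_fun_sum] at hT
  · refine Eq.trans (Finset.sum_congr rfl fun i _ => ?_) hT
    rw [iteratedDeriv_fun_add, iteratedDeriv_fun_add, iteratedDeriv_fun_add,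
      iteratedDeriv_fun_add, iteratedDeriv_fun_add, iteratedDeriv_const_mul_field,
      iteratedDeriv_fun_add, T_id_mul, T_id_mul, T_id_mul]
    · simp only [iteratedDeriv_const_mul_field]
      rw [T_const (by omega), T_const (by omega)]
      have e1 : iteratedDeriv (j - 1) (deriv (A i)) 0 = iteratedDeriv j (A i) 0 := by
        rw [← iteratedDeriv_succ']
        congr 1; omega
      have e2 : iteratedDeriv j (deriv (A i)) 0 = iteratedDeriv (j + 1) (A i) 0 := by
        rw [← iteratedDeriv_succ']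
      rw [e1, e2]
      ring
    all_goals fun_prop
  · intro i _
    fun_prop

end Pool.Agent.Lib.MP_3248c9_gt
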