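import Pool.Agent.Lib.MP_3248c9_gt.Setup

/-!
# Rationality

From the polarised identity `∑ i, (w a_i(z) + B_i(w) + c_i(z))^2 = 0` every `A_i` is a rational
function.
-/

set_option autoImplicit false

open Metric Filter Topology Complex Polynomial
open scoped ComplexConjugate

namespace Pool.Agent.Lib.MP_3248c9_gt

variable {ι : Type*} [Fintype ι] [DecidableEq ι]

/-- Linear algebra over polynomials: if `(w I + T) y(w)` is a polynomial vector for `w ∈ S`, then
`y` is a rational vector on `S`. -/
theorem rational_of_matrix {S : Set ℂ} (T : Matrix ι ι ℂ) (y : ι → ℂ → ℂ) (P : ι → ℂ[X])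
    (h : ∀ w ∈ S, ∀ j, w * y j w + ∑ l, T j l * y l w = (P j).eval w) :
    ∃ g : ℂ[X], g ≠ 0 ∧ ∃ N : ι → ℂ[X], ∀ i, ∀ w ∈ S, g.eval w * y i w = (N i).eval w := by
  classical
  set Mx : Matrix ι ι ℂ[X] := Matrix.charmatrix (-T) with hMx
  refine ⟨Mx.det, ?_, fun i => ∑ j, Mx.adjugate i j * P j, ?_⟩
  · exact (Matrix.charpoly_monic (-T)).ne_zero
  · intro i w hw
    have hP : ∀ j, (P j).eval w = ∑ l, (Mx j l).eval w * y l w := by
      intro j
      rw [← h w hw j]
      have : ∀ l, (Mx j l).eval w * y l w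
          = (if j = l then w * y l w else 0) + T j l * y l w := by
        intro l
        rw [hMx]
        by_cases hjl : j = l
        · subst hjl
          rw [Matrix.charmatrix_apply_eq]
          simp; ring
        · rw [Matrix.charmatrix_apply_ne _ _ _ hjl]
          simp [hjl]
      simp_rw [this]
      rw [Finset.sum_add_distrib]
      simp
    rw [eval_finsetSum]
    simp_rw [eval_mul, hP, Finset.mul_sum]
    rw [Finset.sum_comm]
    have hadj : ∀ l, ∑ j, (Mx.adjugate i j).eval w * (Mx j l).eval w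
        = if i = l then Mx.det.eval w else 0 := by
      intro l
      have h1 := congrArg (fun X => (X i l).eval w) (Matrix.adjugate_mul Mx)
      simp only [Matrix.mul_apply, Matrix.smul_apply, Matrix.one_apply, smul_eq_mul,
        eval_finsetSum, eval_mul] at h1
      rw [h1]
      split_ifs <;> simp
    have : ∀ l, ∑ j, (Mx.adjugate i j).eval w * ((Mx j l).eval w * y l w)
        = (if i = l then Mx.det.eval w * y l w else 0) := by
      intro l
      have h2 := hadj l
      simp_rw [← mul_assoc]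
      rw [← Finset.sum_mul, h2]
      split_ifs <;> simp
    simp_rw [this]
    simp

/-- Every `A_i` is rational. -/
theorem rational_A {r : ℝ} (hr : 0 < r) {A c : ι → ℂ → ℂ}
    (hA : ∀ i, DifferentiableOn ℂ (A i) (ball 0 r))
    (hJ : ∀ z ∈ ball (0 : ℂ) r, ∀ w ∈ ball (0 : ℂ) r,
      ∑ i, (w * deriv (A i) z + cj (A i) w + c i z) ^ 2 = 0) :
    ∃ g : ℂ[X], g ≠ 0 ∧ ∃ N : ι → ℂ[X], ∀ i, ∀ w ∈ ball (0 : ℂ) r,
      g.eval w * A i w = (N i).eval w := by
  have h0D : (0 : ℂ) ∈ ball (0 : ℂ) r := by simpa using hr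
  set y : ι → ℂ → ℂ := fun j w => cj (A j) w - cj (A j) 0 - w * conj (deriv (A j) 0) with hy
  let 𝒲 : Submodule ℂ (EuclideanSpace ℂ ι) :=
    { carrier := {u | ∃ v : ι → ℂ, ∃ P : ℂ[X], ∀ w ∈ ball (0 : ℂ) r,
        w * ∑ i, u i * y i w + ∑ i, v i * y i w = P.eval w}
      add_mem' := by
        rintro u u' ⟨v, P, h⟩ ⟨v', P', h'⟩
        refine ⟨fun i => v i + v' i, P + P', fun w hw => ?_⟩
        rw [eval_add, ← h w hw, ← h' w hw]
        simp only [PiLp.add_apply, add_mul, Finset.sum_add_distrib]
        ring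
      zero_mem' := ⟨fun _ => 0, 0, fun w hw => by simp⟩
      smul_mem' := by
        rintro a u ⟨v, P, h⟩
        refine ⟨fun i => a * v i, C a * P, fun w hw => ?_⟩
        rw [eval_mul, eval_C, ← h w hw]
        simp only [PiLp.smul_apply, smul_eq_mul, mul_assoc, ← Finset.mul_sum]
        ring }
  have hmem : ∀ z ∈ ball (0 : ℂ) r,
      (WithLp.toLp 2 (fun i => deriv (A i) z - deriv (A i) 0) : EuclideanSpace ℂ ι) ∈ 𝒲 := by
    intro z hz
    refine ⟨fun i => c i z - c i 0,
      -(C (1 / 2 : ℂ)) * ∑ i, (X * C (deriv (A i) z - deriv (A i) 0) + C (c i z - c i 0)) *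
        (X * C (deriv (A i) z + deriv (A i) 0 + 2 * conj (deriv (A i) 0)) +
          C (2 * cj (A i) 0 + c i z + c i 0)), fun w hw => ?_⟩
    have e1 := hJ z hz w hw
    have e2 := hJ 0 h0D w hw
    simp only [eval_mul, eval_neg, eval_C, eval_finsetSum, eval_add, eval_X]
    have e3 : ∑ i, ((w * deriv (A i) z + cj (A i) w + c i z) ^ 2
        - (w * deriv (A i) 0 + cj (A i) w + c i 0) ^ 2) = 0 := by
      rw [Finset.sum_sub_distrib, e1, e2, sub_zero]
    have e4 : ∀ i, (w * deriv (A i) z + cj (A i) w + c i z) ^ 2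
        - (w * deriv (A i) 0 + cj (A i) w + c i 0) ^ 2
        = 2 * (w * ((deriv (A i) z - deriv (A i) 0) * y i w) + (c i z - c i 0) * y i w)
          + (w * (deriv (A i) z - deriv (A i) 0) + (c i z - c i 0)) *
        (w * (deriv (A i) z + deriv (A i) 0 + 2 * conj (deriv (A i) 0)) +
          (2 * cj (A i) 0 + c i z + c i 0)) := by
      intro i
      rw [hy]; ring
    simp_rw [e4] at e3
    rw [Finset.sum_add_distrib, ← Finset.mul_sum, Finset.sum_add_distrib, ← Finset.mul_sum] at e3
    linear_combination (1 / 2 : ℂ) * e3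
  have horth : ∀ u ∈ 𝒲ᗮ, ∀ w ∈ ball (0 : ℂ) r, ∑ i, u i * y i w = 0 := by
    intro u hu w hw
    set h : ℂ → ℂ := fun z => ∑ i, conj (u i) * (A i z - A i 0 - z * deriv (A i) 0) with hh
    have hder : ∀ z ∈ ball (0 : ℂ) r,
        HasDerivAt h (∑ i, conj (u i) * (deriv (A i) z - 0 - 1 * deriv (A i) 0)) z := by
      intro z hz
      refine HasDerivAt.fun_sum fun i _ => ?_
      refine HasDerivAt.const_mul _ ?_
      have h1 := ((hA i).differentiableAt (isOpen_ball.mem_nhds hz)).hasDerivAt
      exact (h1.sub (hasDerivAt_const z (A i 0))).sub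
        ((hasDerivAt_id z).mul_const (deriv (A i) 0))
    have hdz : ∀ z ∈ ball (0 : ℂ) r, deriv h z = 0 := by
      intro z hz
      rw [(hder z hz).deriv]
      have := Submodule.inner_right_of_mem_orthogonal (hmem z hz) hu
      rw [← inner_conj_symm] at this
      have h2 : inner ℂ u (WithLp.toLp 2 (fun i => deriv (A i) z - deriv (A i) 0)
          : EuclideanSpace ℂ ι) = 0 := by
        have := congrArg conj this
        simpa using this
      rw [PiLp.inner_apply] at h2
      refine Eq.trans ?_ h2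
      refine Finset.sum_congr rfl fun i _ => ?_
      simp only [RCLike.inner_apply]
      ring
    have hconst := isOpen_ball.is_const_of_deriv_eq_zero (convex_ball (0 : ℂ) r).isPreconnected
      (fun z hz => (hder z hz).differentiableAt.differentiableWithinAt) hdz
      (conj_mem_ball hw) h0D
    have h00 : h 0 = 0 := by simp [hh]
    rw [h00] at hconst
    have := congrArg conj hconst
    rw [hh] at this
    simp only [map_sum, map_mul, map_sub, Complex.conj_conj, map_zero] at this
    refine Eq.trans ?_ this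
    refine Finset.sum_congr rfl fun i _ => ?_
    rw [hy]
    simp [cj]
  have hrow : ∀ j : ι, ∃ v : ι → ℂ, ∃ P : ℂ[X], ∀ w ∈ ball (0 : ℂ) r,
      w * y j w + ∑ l, v l * y l w = P.eval w := by
    intro j
    obtain ⟨u, ⟨v, P, hP⟩, u', hu', hj⟩ :=
      𝒲.exists_add_mem_mem_orthogonal (EuclideanSpace.single j (1 : ℂ))
    refine ⟨v, P, fun w hw => ?_⟩
    rw [← hP w hw]
    have e1 : y j w = ∑ i, (EuclideanSpace.single j (1 : ℂ) : EuclideanSpace ℂ ι) i * y i w := by
      simp
    rw [e1, hj]
    simp only [PiLp.add_apply, add_mul, Finset.sum_add_distrib]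
    rw [horth u' hu' w hw]
    ring
  choose T P hTP using hrow
  obtain ⟨g, hg, N, hN⟩ := rational_of_matrix (S := ball (0 : ℂ) r) (Matrix.of T) y P
    (fun w hw j => hTP j w hw)
  refine ⟨g.map (starRingEnd ℂ), ?_, fun i => (N i + g * (C (cj (A i) 0) + X *
    C (conj (deriv (A i) 0)))).map (starRingEnd ℂ), ?_⟩
  · intro h
    apply hg
    exact (Polynomial.map_eq_zero (starRingEnd ℂ)).1 h
  · intro i w hw
    have h1 := hN i (conj w) (conj_mem_ball hw)
    have h2 : eval (conj w) (N i + g * (C (cj (A i) 0) + X * C (conj (deriv (A i) 0))))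
        = eval (conj w) g * conj (A i w) := by
      simp only [eval_add, eval_mul, eval_C, eval_X]
      rw [← h1, hy]
      simp only [cj, Complex.conj_conj]
      ring
    have h3 := congrArg conj h2
    rw [← eval_map_apply (starRingEnd ℂ), Complex.conj_conj, map_mul,
      ← eval_map_apply (starRingEnd ℂ), Complex.conj_conj] at h3
    rw [h3, Complex.conj_conj]

end Pool.Agent.Lib.MP_3248c9_gt
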