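import Mathlib

/-!
# Two lemmas on sequences

* log-convex sequences: a bound for the ratios from the radius of convergence;
* Abel's theorem for coefficients tending to zero.
-/

set_option autoImplicit false

open Metric Filter Topology Complex Finset

namespace Pool.Agent.Lib.MP_3248c9_gt

/-- A log-convex sequence `E`, positive from `n0` on, with `E n * s ^ n` bounded for all
`0 < s < R`, satisfies `E (n + 1) * R ≤ E n` from `n0` on. -/
theorem ratio_bound {E : ℕ → ℝ} {n0 : ℕ} (hpos : ∀ n ≥ n0, 0 < E n)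
    (hconv : ∀ n ≥ n0, E (n + 1) ^ 2 ≤ E n * E (n + 2)) {R : ℝ}
    (hb : ∀ s, 0 < s → s < R → ∃ M, ∀ n, E n * s ^ n ≤ M) :
    ∀ n ≥ n0, E (n + 1) * R ≤ E n := by
  intro n1 hn1
  by_contra hcon
  push Not at hcon
  have hp1 := hpos n1 hn1
  set q : ℝ := E (n1 + 1) / E n1 with hq
  have hqpos : 0 < q := div_pos (hpos _ (by omega)) hp1
  have hqR : 1 < q * R := by
    rw [hq, div_mul_eq_mul_div, lt_div_iff₀ hp1]; linarith
  have hstep : ∀ k, q * E (n1 + k) ≤ E (n1 + k + 1) := by
    intro k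
    induction k with
    | zero =>
      rw [hq, add_zero, div_mul_cancel₀ _ hp1.ne']
    | succ k ih =>
      have h1 := hconv (n1 + k) (by omega)
      have h2 := hpos (n1 + k) (by omega)
      have h3 := hpos (n1 + k + 1) (by omega)
      have h4 : E (n1 + (k + 1)) = E (n1 + k + 1) := by congr 1
      have h5 : E (n1 + (k + 1) + 1) = E (n1 + k + 2) := by congr 1
      rw [h4, h5]
      by_contra h6
      push Not at h6
      have h7 : E (n1 + k) * E (n1 + k + 2) < E (n1 + k) * (q * E (n1 + k + 1)) :=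
        mul_lt_mul_of_pos_left h6 h2
      have h8 : E (n1 + k) * (q * E (n1 + k + 1)) ≤ E (n1 + k + 1) * E (n1 + k + 1) := by
        have := mul_le_mul_of_nonneg_right ih h3.le
        nlinarith
      nlinarith
  have hpow : ∀ k, E n1 * q ^ k ≤ E (n1 + k) := by
    intro k
    induction k with
    | zero => simp
    | succ k ih =>
      have h1 := hstep k
      have h2 : E n1 * q ^ (k + 1) = q * (E n1 * q ^ k) := by ring
      rw [h2]
      have h3 : E (n1 + (k + 1)) = E (n1 + k + 1) := by congr 1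
      rw [h3]
      calc q * (E n1 * q ^ k) ≤ q * E (n1 + k) := by gcongr
        _ ≤ _ := h1
  obtain ⟨s, hs1, hs2⟩ : ∃ s, 1 / q < s ∧ s < R := by
    apply _root_.exists_between
    rw [div_lt_iff₀ hqpos]; linarith
  have hs0 : 0 < s := lt_trans (by positivity) hs1
  obtain ⟨M, hM⟩ := hb s hs0 hs2
  have hqs : 1 < q * s := by
    rw [div_lt_iff₀ hqpos] at hs1; linarith
  have hlim : Tendsto (fun k => (E n1 * s ^ n1) * (q * s) ^ k) atTop atTop := by
    apply Tendsto.const_mul_atTop (by positivity)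
    exact tendsto_pow_atTop_atTop_of_one_lt hqs
  obtain ⟨k, hk⟩ := (hlim.eventually_gt_atTop M).exists
  have h1 := hM (n1 + k)
  have h2 : (E n1 * s ^ n1) * (q * s) ^ k ≤ E (n1 + k) * s ^ (n1 + k) := by
    have h3 : (E n1 * s ^ n1) * (q * s) ^ k = (E n1 * q ^ k) * s ^ (n1 + k) := by
      rw [mul_pow, pow_add]; ring
    rw [h3]
    have := hpow k
    gcongr
  linarith

/-- Abel: if the coefficients tend to zero, `(1 - t) * ∑ β n t ^ n` tends to `0` as `t → 1`. -/
theorem abel_zero {β : ℕ → ℂ} (hβ : Tendsto β atTop (𝓝 0)) {G : ℝ → ℂ}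
    (hG : ∀ t : ℝ, 0 ≤ t → t < 1 → HasSum (fun n => β n * (t : ℂ) ^ n) (G t)) :
    Tendsto (fun t : ℝ => (1 - (t : ℂ)) * G t) (𝓝[<] 1) (𝓝 0) := by
  set f : ℕ → ℂ := fun n => β n - (if n = 0 then 0 else β (n - 1)) with hf
  have hpart : ∀ n, ∑ i ∈ range (n + 1), f i = β n := by
    intro n
    induction n with
    | zero => simp [hf]
    | succ n ih => rw [sum_range_succ, ih]; simp [hf]
  have hlim : Tendsto (fun n ↦ ∑ i ∈ range n, f i) atTop (𝓝 0) := by
    rw [← tendsto_add_atTop_iff_nat 1]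
    simpa [hpart] using hβ
  have key := Complex.tendsto_tsum_powerSeries_nhdsWithin_lt hlim
  rw [tendsto_map'_iff] at key
  refine key.congr' ?_
  have h1 : ∀ᶠ t : ℝ in 𝓝[<] 1, t ∈ Set.Ioo (0 : ℝ) 1 := Ioo_mem_nhdsLT one_pos
  filter_upwards [h1] with t ht
  have hs := hG t ht.1.le ht.2
  have hs2 : HasSum (fun n => (if n = 0 then 0 else β (n - 1)) * (t : ℂ) ^ n) (t * G t) := by
    rw [← hasSum_nat_add_iff' 1]
    simp only [range_one, sum_singleton, if_true, zero_mul, sub_zero]
    have := hs.mul_left (t : ℂ)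
    convert! this using 2 with n
    simp only [Nat.add_eq_zero_iff, one_ne_zero, and_false, if_false, Nat.add_sub_cancel]
    ring
  have hs3 := hs.sub hs2
  have : HasSum (fun n => f n * (t : ℂ) ^ n) (G t - t * G t) := by
    convert! hs3 using 2 with n
    rw [hf]; ring
  simp only [Function.comp_apply]
  rw [this.tsum_eq]; ring

end Pool.Agent.Lib.MP_3248c9_gt
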