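import Pool.Agent.Lib.MP_3248c9_gt.Norms
import Pool.Agent.Lib.MP_3248c9_gt.Rational
import Pool.Agent.Lib.MP_3248c9_gt.Seq

/-!
# The core theorem

A holomorphic pair `(A, c)` of `ι`-vectors with
`∑ G_i ^ 2 = 0`, `∑ |G_i| ^ 2 = 2`, `G_i = conj z * A_i' + conj A_i + c_i`, has `G` constant.
-/

set_option autoImplicit false

open Metric Filter Topology Complex Polynomial
open scoped ComplexConjugate

namespace Pool.Agent.Lib.MP_3248c9_gt

variable {ι : Type*} [Fintype ι]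

omit [Fintype ι] in
/-- Reduced common denominator. -/
theorem exists_reduced {r : ℝ} {A : ι → ℂ → ℂ} (hA : ∀ i, ContinuousOn (A i) (ball 0 r)) :
    ∀ (n : ℕ) (g : ℂ[X]), g.natDegree = n → g ≠ 0 → ∀ N : ι → ℂ[X],
      (∀ i, ∀ w ∈ ball (0 : ℂ) r, g.eval w * A i w = (N i).eval w) →
      ∃ g : ℂ[X], g ≠ 0 ∧ ∃ N : ι → ℂ[X],
        (∀ i, ∀ w ∈ ball (0 : ℂ) r, g.eval w * A i w = (N i).eval w) ∧
        ∀ z0, g.eval z0 = 0 → ∃ i, (N i).eval z0 ≠ 0 := by
  intro n
  induction n using Nat.strong_induction_on with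
  | _ n ih =>
    intro g hgn hg N hN
    by_cases hred : ∀ z0, g.eval z0 = 0 → ∃ i, (N i).eval z0 ≠ 0
    · exact ⟨g, hg, N, hN, hred⟩
    · push Not at hred
      obtain ⟨z0, hz0, hNz0⟩ := hred
      obtain ⟨g', hg'⟩ := dvd_iff_isRoot.2 hz0
      have hN' : ∀ i, ∃ N', N i = (X - C z0) * N' := fun i => dvd_iff_isRoot.2 (hNz0 i)
      choose N' hN' using hN'
      have hg'0 : g' ≠ 0 := by
        rintro rfl; rw [mul_zero] at hg'; exact hg hg'
      have hdeg : g'.natDegree < n := by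
        rw [← hgn, hg', natDegree_mul (X_sub_C_ne_zero z0) hg'0, natDegree_X_sub_C]
        omega
      refine ih g'.natDegree hdeg g' rfl hg'0 N' ?_
      have hne : ∀ i, ∀ w ∈ ball (0 : ℂ) r, w ≠ z0 → g'.eval w * A i w = (N' i).eval w := by
        intro i w hw hwz
        have h1 := hN i w hw
        rw [hg', hN' i] at h1
        simp only [eval_mul, eval_sub, eval_X, eval_C] at h1
        have h2 : w - z0 ≠ 0 := sub_ne_zero.2 hwz
        apply mul_left_cancel₀ h2
        linear_combination h1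
      intro i w hw
      by_cases hwz : w = z0
      · subst hwz
        have hc1 : ContinuousAt (fun x => g'.eval x * A i x - (N' i).eval x) w := by
          have := (hA i).continuousAt (isOpen_ball.mem_nhds hw)
          exact (g'.continuous.continuousAt.mul this).sub (N' i).continuous.continuousAt
        have hc2 : Tendsto (fun x => g'.eval x * A i x - (N' i).eval x) (𝓝[≠] w)
            (𝓝 (g'.eval w * A i w - (N' i).eval w)) := hc1.tendsto.mono_left nhdsWithin_le_nhds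
        have hc3 : Tendsto (fun x => g'.eval x * A i x - (N' i).eval x) (𝓝[≠] w) (𝓝 0) := by
          refine tendsto_const_nhds.congr' ?_
          have : ∀ᶠ x in 𝓝[≠] w, x ∈ ball (0 : ℂ) r :=
            mem_nhdsWithin_of_mem_nhds (isOpen_ball.mem_nhds hw)
          filter_upwards [this, self_mem_nhdsWithin] with x hx hx2
          rw [hne i x hx hx2]; simp
        exact sub_eq_zero.1 (tendsto_nhds_unique hc2 hc3)
      · exact hne i w hw hwz

section
variable {r : ℝ} (hr : 0 < r) {A : ι → ℂ → ℂ} {g : ℂ[X]} {N : ι → ℂ[X]}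
  (hN : ∀ i, ∀ w ∈ ball (0 : ℂ) r, g.eval w * A i w = (N i).eval w)
  {ρ : ℝ} (hρ : 0 < ρ) (hroot : ∀ z ∈ ball (0 : ℂ) ρ, g.eval z ≠ 0)

omit [Fintype ι] in
include hroot in
theorem quot_diff (i : ι) :
    DifferentiableOn ℂ (fun z => (N i).eval z / g.eval z) (ball 0 ρ) :=
  DifferentiableOn.div (N i).differentiable.differentiableOn g.differentiable.differentiableOn
    hroot

omit [Fintype ι] in
include hr hN hρ hroot in
theorem quot_iter (i : ι) (n : ℕ) :
    iteratedDeriv n (fun z => (N i).eval z / g.eval z) 0 = iteratedDeriv n (A i) 0 := by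
  refine iteratedDeriv_eq_of_ball (r := min r ρ) (lt_min hr hρ) ?_ n
  intro z hz
  have h1 : z ∈ ball (0 : ℂ) r := ball_subset_ball (min_le_left _ _) hz
  have h2 : z ∈ ball (0 : ℂ) ρ := ball_subset_ball (min_le_right _ _) hz
  rw [← hN i z h1, mul_div_cancel_left₀ _ (hroot z h2)]

include hr hN hρ hroot in
theorem EE_bdd (s : ℝ) (hs : 0 < s) (hsρ : s < ρ ^ 2) : ∃ M, ∀ n, EE A n * s ^ n ≤ M := by
  have hsq : 0 < Real.sqrt s := Real.sqrt_pos.2 hs
  have hsq2 : Real.sqrt s < ρ := by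
    rw [Real.sqrt_lt' hρ]; exact hsρ
  have hz : ((Real.sqrt s : ℝ) : ℂ) ∈ ball (0 : ℂ) ρ := by
    simp only [mem_ball, dist_zero_right, Complex.norm_real, Real.norm_eq_abs, abs_of_pos hsq]
    exact hsq2
  have hK : ∀ i, ∃ K, ∀ n : ℕ, ‖iteratedDeriv (n + 1) (A i) 0‖ / n.factorial * Real.sqrt s ^ n ≤ K := by
    intro i
    have hd := (quot_diff hroot (N := N) i).deriv isOpen_ball
    have hT := Complex.hasSum_taylorSeries_on_ball hd hz
    have hb := (hT.summable.tendsto_atTop_zero.norm).bddAbove_range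
    obtain ⟨K, hK⟩ := hb
    refine ⟨K, fun n => ?_⟩
    have := hK ⟨n, rfl⟩
    refine le_trans (le_of_eq ?_) this
    beta_reduce
    rw [← iteratedDeriv_succ', quot_iter hr hN hρ hroot]
    simp only [sub_zero, smul_eq_mul, norm_mul, norm_inv, norm_pow, Complex.norm_natCast,
      Complex.norm_real, Real.norm_eq_abs, abs_of_pos hsq]
    rw [div_eq_inv_mul]; ring
  choose K hK using hK
  refine ⟨∑ i, K i ^ 2, fun n => ?_⟩
  unfold EE SA
  rw [Finset.sum_div, Finset.sum_mul]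
  refine Finset.sum_le_sum fun i _ => ?_
  have h1 : ‖iteratedDeriv (n + 1) (A i) 0‖ ^ 2 / (n.factorial : ℝ) ^ 2 * s ^ n
      = (‖iteratedDeriv (n + 1) (A i) 0‖ / n.factorial * Real.sqrt s ^ n) ^ 2 := by
    rw [mul_pow, div_pow, ← pow_mul, mul_comm n 2, pow_mul, Real.sq_sqrt hs.le]
  rw [h1]
  have h2 := hK i n
  have h3 : 0 ≤ ‖iteratedDeriv (n + 1) (A i) 0‖ / n.factorial * Real.sqrt s ^ n := by positivity
  gcongr

include hρ in
/-- The Taylor coefficients are `o (ρ ^ (-n))`. -/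
theorem coef_tendsto {z0 : ℂ} (hn0 : ‖z0‖ = ρ) {n0 : ℕ}
    (hbound : ∀ n ≥ n0, EE A (n + 1) * ρ ^ 2 ≤ EE A n) (i : ι) :
    Tendsto (fun n : ℕ => (n.factorial : ℂ)⁻¹ * iteratedDeriv n (A i) 0 * z0 ^ n)
      atTop (𝓝 0) := by
  have hM : ∀ n ≥ n0, EE A n * (ρ ^ 2) ^ n ≤ EE A n0 * (ρ ^ 2) ^ n0 := by
    intro n hn
    induction n, hn using Nat.le_induction with
    | base => exact le_rfl
    | succ n hn ih =>
      calc EE A (n + 1) * (ρ ^ 2) ^ (n + 1) = (EE A (n + 1) * ρ ^ 2) * (ρ ^ 2) ^ n := by ring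
        _ ≤ EE A n * (ρ ^ 2) ^ n := by
          have := hbound n hn
          gcongr
        _ ≤ _ := ih
  set M : ℝ := EE A n0 * (ρ ^ 2) ^ n0 with hMdef
  have hM0 : 0 ≤ M := by
    have := EE_nonneg A n0
    positivity
  rw [← tendsto_add_atTop_iff_nat 1, tendsto_zero_iff_norm_tendsto_zero]
  have hlim : Tendsto (fun n : ℕ => (Real.sqrt M * ρ) * (1 / ((n : ℝ) + 1))) atTop (𝓝 0) := by
    have := (tendsto_one_div_add_atTop_nhds_zero_nat (𝕜 := ℝ)).const_mul (Real.sqrt M * ρ)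
    simpa using this
  refine squeeze_zero' (Eventually.of_forall fun n => norm_nonneg _) ?_ hlim
  filter_upwards [eventually_ge_atTop n0] with n hn
  have h1 := hM n hn
  have h2 : ‖iteratedDeriv (n + 1) (A i) 0‖ ^ 2 ≤ SA A (n + 1) := by
    unfold SA
    exact Finset.single_le_sum (f := fun i => ‖iteratedDeriv (n + 1) (A i) 0‖ ^ 2)
      (fun _ _ => by positivity) (Finset.mem_univ i)
  have hf : (0 : ℝ) < n.factorial := by positivity
  have h3 : (‖iteratedDeriv (n + 1) (A i) 0‖ / n.factorial * ρ ^ n) ^ 2 ≤ M := by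
    refine le_trans ?_ h1
    unfold EE
    rw [mul_pow, div_pow, ← pow_mul, ← pow_mul, mul_comm n 2]
    gcongr
  have h4 : ‖iteratedDeriv (n + 1) (A i) 0‖ / n.factorial * ρ ^ n ≤ Real.sqrt M := by
    exact Real.le_sqrt_of_sq_le h3
  rw [norm_mul, norm_mul, norm_inv, norm_pow, hn0, Complex.norm_natCast, Nat.factorial_succ]
  push_cast
  calc (((n : ℝ) + 1) * n.factorial)⁻¹ * ‖iteratedDeriv (n + 1) (A i) 0‖ * ρ ^ (n + 1)
      = (‖iteratedDeriv (n + 1) (A i) 0‖ / n.factorial * ρ ^ n) * (ρ * (1 / ((n : ℝ) + 1))) := by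
        field_simp
        ring
    _ ≤ Real.sqrt M * (ρ * (1 / ((n : ℝ) + 1))) := by gcongr
    _ = _ := by ring

include hr hN hρ hroot in
/-- At a root of minimal modulus all numerators vanish. -/
theorem numer_zero {z0 : ℂ} (hz0 : g.eval z0 = 0) (hn0 : ‖z0‖ = ρ) {n0 : ℕ}
    (hbound : ∀ n ≥ n0, EE A (n + 1) * ρ ^ 2 ≤ EE A n) (i : ι) : (N i).eval z0 = 0 := by
  have hβ := coef_tendsto hρ hn0 hbound i
  have hball : ∀ t : ℝ, 0 ≤ t → t < 1 → (t : ℂ) * z0 ∈ ball (0 : ℂ) ρ := by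
    intro t ht0 ht1
    simp only [mem_ball, dist_zero_right, norm_mul, Complex.norm_real, Real.norm_eq_abs,
      abs_of_nonneg ht0, hn0]
    nlinarith
  have hG : ∀ t : ℝ, 0 ≤ t → t < 1 →
      HasSum (fun n => ((n.factorial : ℂ)⁻¹ * iteratedDeriv n (A i) 0 * z0 ^ n) * (t : ℂ) ^ n)
        ((N i).eval ((t : ℂ) * z0) / g.eval ((t : ℂ) * z0)) := by
    intro t ht0 ht1
    have hT := Complex.hasSum_taylorSeries_on_ball (quot_diff hroot (N := N) i) (hball t ht0 ht1)
    convert! hT using 2 with n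
    rw [quot_iter hr hN hρ hroot]
    simp only [sub_zero, smul_eq_mul, mul_pow]
    ring
  have hlim := abel_zero hβ hG
  obtain ⟨g', hg'⟩ := dvd_iff_isRoot.2 hz0
  have hc : Tendsto (fun t : ℝ => (t : ℂ) * z0) (𝓝[<] 1) (𝓝 z0) := by
    have : Continuous (fun t : ℝ => (t : ℂ) * z0) := by fun_prop
    have h := (this.tendsto 1).mono_left (nhdsWithin_le_nhds (s := Set.Iio 1))
    simpa using h
  have h1 : Tendsto (fun t : ℝ => (-z0 * g'.eval ((t : ℂ) * z0)) *
      ((1 - (t : ℂ)) * ((N i).eval ((t : ℂ) * z0) / g.eval ((t : ℂ) * z0))))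
      (𝓝[<] 1) (𝓝 ((-z0 * g'.eval z0) * 0)) := by
    refine Tendsto.mul ?_ hlim
    exact tendsto_const_nhds.mul ((g'.continuous.tendsto z0).comp hc)
  have h2 : Tendsto (fun t : ℝ => (N i).eval ((t : ℂ) * z0)) (𝓝[<] 1)
      (𝓝 ((-z0 * g'.eval z0) * 0)) := by
    refine h1.congr' ?_
    have hIoo : ∀ᶠ t : ℝ in 𝓝[<] 1, t ∈ Set.Ioo (0 : ℝ) 1 := Ioo_mem_nhdsLT one_pos
    filter_upwards [hIoo] with t ht
    have hg0 := hroot _ (hball t ht.1.le ht.2)
    have hg1 : g.eval ((t : ℂ) * z0) = (-z0 * g'.eval ((t : ℂ) * z0)) * (1 - (t : ℂ)) := by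
      rw [hg']
      simp only [eval_mul, eval_sub, eval_X, eval_C]
      ring
    rw [← mul_assoc, ← hg1, mul_div_cancel₀ _ hg0]
  have h3 : Tendsto (fun t : ℝ => (N i).eval ((t : ℂ) * z0)) (𝓝[<] 1) (𝓝 ((N i).eval z0)) :=
    ((N i).continuous.tendsto z0).comp hc
  have := tendsto_nhds_unique h3 h2
  simpa using this

end

section
variable {r : ℝ} (hr : 0 < r) {A c : ι → ℂ → ℂ}
    (hA : ∀ i, DifferentiableOn ℂ (A i) (ball 0 r))
    (hc : ∀ i, DifferentiableOn ℂ (c i) (ball 0 r))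
    (hJ1 : ∀ z ∈ ball (0 : ℂ) r, ∀ w ∈ ball (0 : ℂ) r,
      ∑ i, (w * deriv (A i) z + cj (A i) w + c i z) ^ 2 = 0)
    (hJ2 : ∀ z ∈ ball (0 : ℂ) r, ∀ w ∈ ball (0 : ℂ) r,
      ∑ i, (w * deriv (A i) z + cj (A i) w + c i z) *
        (z * cj (deriv (A i)) w + A i z + cj (c i) w) = 2)
include hr hA hc hJ1 hJ2

/-- All `A_i` are affine. -/
theorem EE_zero (n0 : ℕ) (hn0 : 1 ≤ n0) : EE A n0 = 0 := by
  classical
  by_contra hne
  have hpos0 : 0 < EE A n0 := lt_of_le_of_ne (EE_nonneg _ _) (Ne.symm hne)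
  have hpos : ∀ n ≥ n0, 0 < EE A n := by
    intro n hn
    induction n, hn using Nat.le_induction with
    | base => exact hpos0
    | succ n hn ih => exact EE_pos_succ hr hA hc hJ1 n (by omega) ih
  have hconv : ∀ n ≥ n0, EE A (n + 1) ^ 2 ≤ EE A n * EE A (n + 2) := fun n hn =>
    EE_conv hr hA hc hJ1 hJ2 n (by omega)
  obtain ⟨g1, hg1, N1, hN1⟩ := rational_A hr hA hJ1
  obtain ⟨g, hg, N, hN, hred⟩ := exists_reduced (fun i => (hA i).continuousOn) _ g1 rfl hg1 N1 hN1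
  have h0D : (0 : ℂ) ∈ ball (0 : ℂ) r := by simpa using hr
  have hg0 : g.eval 0 ≠ 0 := by
    intro h
    obtain ⟨i, hi⟩ := hred 0 h
    apply hi
    rw [← hN i 0 h0D, h, zero_mul]
  have hK : ∀ ρ : ℝ, 0 < ρ → (∀ z ∈ ball (0 : ℂ) ρ, g.eval z ≠ 0) →
      ∀ n ≥ n0, EE A (n + 1) * ρ ^ 2 ≤ EE A n := by
    intro ρ hρ hroot
    exact ratio_bound hpos hconv (fun s hs hs2 => EE_bdd hr hN hρ hroot s hs hs2)
  by_cases hroots : g.roots.toFinset.Nonempty
  · obtain ⟨z0, hz0, hmin⟩ := g.roots.toFinset.exists_min_image (fun z => ‖z‖) hroots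
    have hz0r : g.eval z0 = 0 := by
      have := (mem_roots hg).1 (Multiset.mem_toFinset.1 hz0)
      exact this
    have hρ : 0 < ‖z0‖ := by
      rw [norm_pos_iff]
      rintro rfl
      exact hg0 hz0r
    have hroot : ∀ z ∈ ball (0 : ℂ) ‖z0‖, g.eval z ≠ 0 := by
      intro z hz h
      have hz' : z ∈ g.roots.toFinset := Multiset.mem_toFinset.2 ((mem_roots hg).2 h)
      have := hmin z hz'
      rw [mem_ball, dist_zero_right] at hz
      linarith
    obtain ⟨i, hi⟩ := hred z0 hz0r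
    exact hi (numer_zero hr hN hρ hroot hz0r rfl (hK _ hρ hroot) i)
  · have hnoroot : ∀ z, g.eval z ≠ 0 := by
      intro z h
      apply hroots
      exact ⟨z, Multiset.mem_toFinset.2 ((mem_roots hg).2 h)⟩
    have hp1 := hpos (n0 + 1) (by omega)
    set q : ℝ := EE A n0 / EE A (n0 + 1) with hq
    have hq0 : 0 < q := div_pos hpos0 hp1
    have h1 := hK (q + 1) (by linarith) (fun z _ => hnoroot z) n0 le_rfl
    have h2 : EE A n0 = q * EE A (n0 + 1) := by
      rw [hq, div_mul_cancel₀ _ hp1.ne']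
    rw [h2] at h1
    have h3 : q < (q + 1) ^ 2 := by nlinarith
    nlinarith

theorem iter_zero (n : ℕ) (hn : 2 ≤ n) (i : ι) : iteratedDeriv n (A i) 0 = 0 := by
  have h := EE_zero hr hA hc hJ1 hJ2 (n - 1) (by omega)
  unfold EE at h
  have e : n - 1 + 1 = n := by omega
  rw [e] at h
  have hf : (0 : ℝ) < (n - 1).factorial := by positivity
  have h2 : SA A n = 0 := by
    rcases div_eq_zero_iff.1 h with h | h
    · exact h
    · exact absurd h (by positivity)
  unfold SA at h2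
  have h3 := (Finset.sum_eq_zero_iff_of_nonneg (fun _ _ => by positivity)).1 h2 i
    (Finset.mem_univ i)
  simpa using h3

theorem A_affine (i : ι) (z : ℂ) (hz : z ∈ ball (0 : ℂ) r) :
    A i z = A i 0 + z * deriv (A i) 0 := by
  have hT := Complex.hasSum_taylorSeries_on_ball (hA i) hz
  have h2 : HasSum (fun n : ℕ => (n.factorial : ℂ)⁻¹ •
      (z - 0) ^ n • iteratedDeriv n (A i) 0) (∑ n ∈ Finset.range 2, (n.factorial : ℂ)⁻¹ •
      (z - 0) ^ n • iteratedDeriv n (A i) 0) := by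
    refine hasSum_sum_of_ne_finset_zero (fun n hn => ?_)
    have : 2 ≤ n := by
      by_contra h
      exact hn (Finset.mem_range.2 (by omega))
    rw [iter_zero hr hA hc hJ1 hJ2 n this i]; simp
  have h3 := hT.unique h2
  rw [h3]
  simp [Finset.sum_range_succ, iteratedDeriv_one]

theorem deriv_A_const (i : ι) (z : ℂ) (hz : z ∈ ball (0 : ℂ) r) :
    deriv (A i) z = deriv (A i) 0 := by
  have h : (A i) =ᶠ[𝓝 z] fun z => A i 0 + z * deriv (A i) 0 := by
    filter_upwards [isOpen_ball.mem_nhds hz] with x hx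
    exact A_affine hr hA hc hJ1 hJ2 i x hx
  rw [h.deriv_eq]
  simp

theorem re_zero (i : ι) : deriv (A i) 0 + conj (deriv (A i) 0) = 0 := by
  have h0D : (0 : ℂ) ∈ ball (0 : ℂ) r := by simpa using hr
  set P : ℂ := ∑ i, (deriv (A i) 0 + conj (deriv (A i) 0)) ^ 2 with hP
  set Q : ℂ := ∑ i, 2 * (deriv (A i) 0 + conj (deriv (A i) 0)) * (conj (A i 0) + c i 0) with hQ
  set R : ℂ := ∑ i, (conj (A i 0) + c i 0) ^ 2 with hR
  have h : ∀ w ∈ ball (0 : ℂ) r, w ^ 2 * P + w * Q + R = 0 := by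
    intro w hw
    refine Eq.trans ?_ (hJ1 0 h0D w hw)
    rw [hP, hQ, hR, Finset.mul_sum, Finset.mul_sum, ← Finset.sum_add_distrib,
      ← Finset.sum_add_distrib]
    refine Finset.sum_congr rfl fun i _ => ?_
    have : cj (A i) w = conj (A i 0) + w * conj (deriv (A i) 0) := by
      rw [cj, A_affine hr hA hc hJ1 hJ2 i _ (conj_mem_ball hw)]
      simp
    rw [this]; ring
  have hP0 : P = 0 := by
    have hw : ((r / 2 : ℝ) : ℂ) ∈ ball (0 : ℂ) r := by
      simp only [mem_ball, dist_zero_right, Complex.norm_real, Real.norm_eq_abs]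
      rw [abs_of_pos (by positivity)]; linarith
    have hw' : (-(r / 2 : ℝ) : ℂ) ∈ ball (0 : ℂ) r := by
      simp only [mem_ball, dist_zero_right, norm_neg, Complex.norm_real, Real.norm_eq_abs]
      rw [abs_of_pos (by positivity)]; linarith
    have e0 := h 0 h0D
    have e1 := h _ hw
    have e2 := h _ hw'
    have e3 : ((r / 2 : ℝ) : ℂ) ^ 2 * P = 0 := by
      linear_combination (1 / 2 : ℂ) * e1 + (1 / 2 : ℂ) * e2 - e0
    have hne : ((r / 2 : ℝ) : ℂ) ^ 2 ≠ 0 := by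
      apply pow_ne_zero
      rw [Complex.ofReal_ne_zero]; positivity
    exact (mul_eq_zero.1 e3).resolve_left hne
  have hreal : ∀ i, (deriv (A i) 0 + conj (deriv (A i) 0)) ^ 2
      = (((2 * (deriv (A i) 0).re) ^ 2 : ℝ) : ℂ) := by
    intro i
    rw [Complex.add_conj]; push_cast; ring
  rw [hP] at hP0
  simp_rw [hreal] at hP0
  rw [← Complex.ofReal_sum, Complex.ofReal_eq_zero] at hP0
  have h3 := (Finset.sum_eq_zero_iff_of_nonneg (fun _ _ => by positivity)).1 hP0 i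
    (Finset.mem_univ i)
  have h4 : (deriv (A i) 0).re = 0 := by
    have := pow_eq_zero_iff (two_ne_zero) |>.1 h3
    linarith
  rw [Complex.add_conj, h4]; simp

/-- Conclusion in terms of the polarised identities. -/
theorem G_const (i : ι) (z : ℂ) (hz : z ∈ ball (0 : ℂ) r) :
    conj z * deriv (A i) z + conj (A i z) + c i z = conj (A i 0) + c i 0 := by
  have h0D : (0 : ℂ) ∈ ball (0 : ℂ) r := by simpa using hr
  have hform : ∀ i, ∀ z ∈ ball (0 : ℂ) r, ∀ w ∈ ball (0 : ℂ) r,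
      w * deriv (A i) z + cj (A i) w + c i z = conj (A i 0) + c i z := by
    intro i z hz w hw
    have h1 : cj (A i) w = conj (A i 0) + w * conj (deriv (A i) 0) := by
      rw [cj, A_affine hr hA hc hJ1 hJ2 i _ (conj_mem_ball hw)]
      simp
    rw [h1, deriv_A_const hr hA hc hJ1 hJ2 i z hz]
    linear_combination w * re_zero hr hA hc hJ1 hJ2 i
  have hform2 : ∀ i, ∀ z ∈ ball (0 : ℂ) r, ∀ w ∈ ball (0 : ℂ) r,
      z * cj (deriv (A i)) w + A i z + cj (c i) w = A i 0 + cj (c i) w := by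
    intro i z hz w hw
    have h1 : cj (deriv (A i)) w = conj (deriv (A i) 0) := by
      rw [cj, deriv_A_const hr hA hc hJ1 hJ2 i _ (conj_mem_ball hw)]
    rw [h1, A_affine hr hA hc hJ1 hJ2 i z hz]
    linear_combination z * re_zero hr hA hc hJ1 hJ2 i
  have hcj : conj z * deriv (A i) z + conj (A i z) + c i z
      = conj z * deriv (A i) z + cj (A i) (conj z) + c i z := by
    simp [cj]
  rw [hcj, hform i z hz _ (conj_mem_ball hz)]
  have hip : ∀ z ∈ ball (0 : ℂ) r, ∀ ζ ∈ ball (0 : ℂ) r,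
      ∑ i, (conj (A i 0) + c i z) * conj (conj (A i 0) + c i ζ) = 2 := by
    intro z hz ζ hζ
    refine Eq.trans ?_ (hJ2 z hz (conj ζ) (conj_mem_ball hζ))
    refine Finset.sum_congr rfl fun i _ => ?_
    rw [hform i z hz _ (conj_mem_ball hζ), hform2 i z hz _ (conj_mem_ball hζ)]
    simp [cj]
  have hsum : ∑ i, ((c i z - c i 0) * conj (c i z - c i 0)) = 0 := by
    have e : ∀ i, (c i z - c i 0) * conj (c i z - c i 0)
        = (conj (A i 0) + c i z) * conj (conj (A i 0) + c i z)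
          - (conj (A i 0) + c i z) * conj (conj (A i 0) + c i 0)
          - (conj (A i 0) + c i 0) * conj (conj (A i 0) + c i z)
          + (conj (A i 0) + c i 0) * conj (conj (A i 0) + c i 0) := by
      intro i
      simp only [map_sub, map_add, Complex.conj_conj]; ring
    simp_rw [e]
    rw [Finset.sum_add_distrib, Finset.sum_sub_distrib, Finset.sum_sub_distrib,
      hip z hz z hz, hip z hz 0 h0D, hip 0 h0D z hz, hip 0 h0D 0 h0D]
    norm_num
  have hreal : ∀ i, (c i z - c i 0) * conj (c i z - c i 0)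
      = ((‖c i z - c i 0‖ ^ 2 : ℝ) : ℂ) := by
    intro i
    rw [Complex.mul_conj, Complex.normSq_eq_norm_sq]
  simp_rw [hreal] at hsum
  rw [← Complex.ofReal_sum, Complex.ofReal_eq_zero] at hsum
  have h3 := (Finset.sum_eq_zero_iff_of_nonneg (fun _ _ => by positivity)).1 hsum i
    (Finset.mem_univ i)
  have h4 : c i z - c i 0 = 0 := by simpa using h3
  rw [sub_eq_zero.1 h4]

end

/-- **Core theorem.** -/
theorem core {r : ℝ} (hr : 0 < r) {A c : ι → ℂ → ℂ}
    (hA : ∀ i, DifferentiableOn ℂ (A i) (ball 0 r))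
    (hc : ∀ i, DifferentiableOn ℂ (c i) (ball 0 r))
    (h1 : ∀ z ∈ ball (0 : ℂ) r,
      ∑ i, (conj z * deriv (A i) z + conj (A i z) + c i z) ^ 2 = 0)
    (h2 : ∀ z ∈ ball (0 : ℂ) r,
      ∑ i, (conj z * deriv (A i) z + conj (A i z) + c i z) *
        conj (conj z * deriv (A i) z + conj (A i z) + c i z) = 2) :
    ∀ i, ∀ z ∈ ball (0 : ℂ) r,
      conj z * deriv (A i) z + conj (A i z) + c i z = conj (A i 0) + c i 0 :=
  fun i z hz => G_const hr hA hc (J1 hA hc h1) (J2 hA hc h2) i z hz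

end Pool.Agent.Lib.MP_3248c9_gt
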