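import Pool.Agent.Lib.MP_3248c9_gt.Rep

/-!
# Flat biharmonic surfaces
-/

set_option autoImplicit false

open Metric Filter Topology Complex
open scoped ComplexConjugate ContDiff

namespace Pool.Agent.Lib.MP_3248c9_gt

theorem flat_ball {m : ℕ} {r : ℝ} (hr : 0 < r) {x : Fin m → ℂ → ℝ}
    (hx : ∀ i, ∀ z ∈ ball (0 : ℂ) r, ContDiffAt ℝ ∞ (x i) z)
    (hb : ∀ i, ∀ z ∈ ball (0 : ℂ) r, Lap (Lap (x i)) z = 0)
    (h11 : ∀ z ∈ ball (0 : ℂ) r, ∑ i, dd 1 (x i) z * dd 1 (x i) z = 1)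
    (hII : ∀ z ∈ ball (0 : ℂ) r, ∑ i, dd I (x i) z * dd I (x i) z = 1)
    (h1I : ∀ z ∈ ball (0 : ℂ) r, ∑ i, dd 1 (x i) z * dd I (x i) z = 0) :
    ∀ i, ∀ z ∈ ball (0 : ℂ) r, dd 1 (x i) z = dd 1 (x i) 0 ∧ dd I (x i) z = dd I (x i) 0 := by
  have h0D : (0 : ℂ) ∈ ball (0 : ℂ) r := by simpa using hr
  choose A c hA hc hG using fun i => rep (hx i) (hb i)
  have hcore := core hr hA hc ?_ ?_
  · intro i z hz
    have h1 : (dd 1 (x i) z : ℂ) - I * dd I (x i) z = (dd 1 (x i) 0 : ℂ) - I * dd I (x i) 0 := by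
      rw [hG i z hz, hG i 0 h0D, hcore i z hz, hcore i 0 h0D]
    constructor
    · have := congrArg Complex.re h1
      simpa using this
    · have := congrArg Complex.im h1
      simpa using this
  · intro z hz
    have e : ∀ i, (conj z * deriv (A i) z + conj (A i z) + c i z) ^ 2
        = ((dd 1 (x i) z * dd 1 (x i) z : ℝ) : ℂ) - ((dd I (x i) z * dd I (x i) z : ℝ) : ℂ)
          - 2 * I * ((dd 1 (x i) z * dd I (x i) z : ℝ) : ℂ) := by
      intro i
      rw [← hG i z hz]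
      push_cast
      ring_nf
      rw [I_sq]; ring
    simp_rw [e]
    rw [Finset.sum_sub_distrib, Finset.sum_sub_distrib, ← Finset.mul_sum, ← Complex.ofReal_sum,
      ← Complex.ofReal_sum, ← Complex.ofReal_sum, h11 z hz, hII z hz, h1I z hz]
    simp
  · intro z hz
    have e : ∀ i, (conj z * deriv (A i) z + conj (A i z) + c i z) *
        conj (conj z * deriv (A i) z + conj (A i z) + c i z)
        = ((dd 1 (x i) z * dd 1 (x i) z : ℝ) : ℂ) + ((dd I (x i) z * dd I (x i) z : ℝ) : ℂ) := by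
      intro i
      rw [← hG i z hz]
      simp only [map_sub, map_mul, Complex.conj_ofReal, conj_I]
      push_cast
      ring_nf
      rw [I_sq]; ring
    simp_rw [e]
    rw [Finset.sum_add_distrib, ← Complex.ofReal_sum, ← Complex.ofReal_sum, h11 z hz, hII z hz]
    norm_num

/-- The identification `ℂ = ℝ²`. -/
noncomputable def eC : ℂ ≃ₗᵢ[ℝ] EuclideanSpace ℝ (Fin 2) := Complex.orthonormalBasisOneI.repr

theorem eC_one : eC 1 = EuclideanSpace.single 0 1 := by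
  have := Complex.orthonormalBasisOneI.repr_self 0
  simpa [eC] using this

theorem eC_I : eC I = EuclideanSpace.single 1 1 := by
  have := Complex.orthonormalBasisOneI.repr_self 1
  simpa [eC] using this

/-- The flat Laplacian, as the sum of the second partial derivatives. -/
noncomputable def MM {m : ℕ} (h : EuclideanSpace ℝ (Fin 2) → EuclideanSpace ℝ (Fin m)) :
    EuclideanSpace ℝ (Fin 2) → EuclideanSpace ℝ (Fin m) := fun y =>
  ∑ j : Fin 2, fderiv ℝ (fun y' => fderiv ℝ h y' (EuclideanSpace.single j (1 : ℝ))) y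
    (EuclideanSpace.single j (1 : ℝ))

section
variable {m : ℕ} {h : EuclideanSpace ℝ (Fin 2) → EuclideanSpace ℝ (Fin m)}
  {p : EuclideanSpace ℝ (Fin 2)} {z : ℂ}

theorem dd_comp (hh : DifferentiableAt ℝ h (p + eC z)) (w : ℂ) (i : Fin m) :
    dd w (fun z => h (p + eC z) i) z = (fderiv ℝ h (p + eC z) (eC w)) i := by
  unfold dd
  have h1 : HasFDerivAt (fun z : ℂ => p + eC z) (eC : ℂ →L[ℝ] EuclideanSpace ℝ (Fin 2)) z :=
    ((eC : ℂ →L[ℝ] EuclideanSpace ℝ (Fin 2)).hasFDerivAt (x := z)).const_add p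
  have h2 : HasFDerivAt (fun z => h (p + eC z))
      ((fderiv ℝ h (p + eC z)).comp (eC : ℂ →L[ℝ] EuclideanSpace ℝ (Fin 2))) z :=
    hh.hasFDerivAt.comp z h1
  have h3 : HasFDerivAt (fun z => h (p + eC z) i)
      ((EuclideanSpace.proj i : EuclideanSpace ℝ (Fin m) →L[ℝ] ℝ).comp
      ((fderiv ℝ h (p + eC z)).comp (eC : ℂ →L[ℝ] EuclideanSpace ℝ (Fin 2)))) z :=
    (EuclideanSpace.proj i : EuclideanSpace ℝ (Fin m) →L[ℝ] ℝ).hasFDerivAt.comp z h2
  rw [h3.fderiv]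
  simp

theorem smooth_dir {y : EuclideanSpace ℝ (Fin 2)} (hh : ContDiffAt ℝ ∞ h y)
    (v : EuclideanSpace ℝ (Fin 2)) : ContDiffAt ℝ ∞ (fun y' => fderiv ℝ h y' v) y := by
  have h1 : ContDiffAt ℝ ∞ (fderiv ℝ h) y := hh.fderiv_right (m := ∞) (by simp)
  exact h1.clm_apply contDiffAt_const

theorem MM_smooth {y : EuclideanSpace ℝ (Fin 2)} (hh : ContDiffAt ℝ ∞ h y) :
    ContDiffAt ℝ ∞ (MM h) y := by
  unfold MM
  exact ContDiffAt.sum fun j _ => smooth_dir (smooth_dir hh _) _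

theorem smooth_comp (hh : ContDiffAt ℝ ∞ h (p + eC z)) (i : Fin m) :
    ContDiffAt ℝ ∞ (fun z => h (p + eC z) i) z := by
  have h1 : ContDiffAt ℝ ∞ (fun z : ℂ => p + eC z) z :=
    contDiffAt_const.add (eC : ℂ →L[ℝ] EuclideanSpace ℝ (Fin 2)).contDiff.contDiffAt
  have h2 : ContDiffAt ℝ ∞ (fun z => h (p + eC z)) z := hh.comp z h1
  exact (EuclideanSpace.proj i : EuclideanSpace ℝ (Fin m) →L[ℝ] ℝ).contDiff.contDiffAt.comp z h2

theorem Lap_comp {r : ℝ} (hh : ∀ z ∈ ball (0 : ℂ) r, ContDiffAt ℝ ∞ h (p + eC z)) (i : Fin m) :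
    ∀ z ∈ ball (0 : ℂ) r, Lap (fun z => h (p + eC z) i) z = (MM h (p + eC z)) i := by
  intro z hz
  unfold Lap MM
  have h1 : ∀ v : ℂ, dd v (fun z => h (p + eC z) i)
      =ᶠ[𝓝 z] fun z => (fun y => fderiv ℝ h y (eC v)) (p + eC z) i := by
    intro v
    filter_upwards [isOpen_ball.mem_nhds hz] with w hw
    exact dd_comp ((hh w hw).differentiableAt (by simp)) v i
  have h2 : ∀ v : ℂ, dd v (dd v (fun z => h (p + eC z) i)) z
      = (fderiv ℝ (fun y => fderiv ℝ h y (eC v)) (p + eC z) (eC v)) i := by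
    intro v
    have h3 : dd v (dd v (fun z => h (p + eC z) i)) z
        = dd v (fun z => (fun y => fderiv ℝ h y (eC v)) (p + eC z) i) z := by
      unfold dd at h1 ⊢
      rw [(h1 v).fderiv_eq]
    rw [h3, dd_comp ((smooth_dir (hh z hz) _).differentiableAt (by simp))]
  rw [h2, h2, eC_one, eC_I]
  simp [Fin.sum_univ_two]

end

end Pool.Agent.Lib.MP_3248c9_gt
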