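import Pool.Agent.Lib.MP_3248c9_gt.Coeff

/-!
# Relations between the norms of the Taylor coefficients
-/

set_option autoImplicit false

open Metric Filter Topology Complex
open scoped ComplexConjugate

namespace Pool.Agent.Lib.MP_3248c9_gt

variable {ι : Type*} [Fintype ι]

/-- Squared norm of the vector of `n`-th derivatives at `0`. -/
noncomputable def SA (A : ι → ℂ → ℂ) (n : ℕ) : ℝ := ∑ i, ‖iteratedDeriv n (A i) 0‖ ^ 2

theorem SA_nonneg (A : ι → ℂ → ℂ) (n : ℕ) : 0 ≤ SA A n := by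
  unfold SA; positivity

theorem SA_coe (A : ι → ℂ → ℂ) (n : ℕ) :
    (SA A n : ℂ) = ∑ i, conj (iteratedDeriv n (A i) 0) * iteratedDeriv n (A i) 0 := by
  unfold SA
  push_cast
  refine Finset.sum_congr rfl fun i _ => ?_
  rw [← Complex.normSq_eq_conj_mul_self, Complex.normSq_eq_norm_sq]
  push_cast; rfl

section
variable {r : ℝ} (hr : 0 < r) {A c : ι → ℂ → ℂ}
    (hA : ∀ i, DifferentiableOn ℂ (A i) (ball 0 r))
    (hc : ∀ i, DifferentiableOn ℂ (c i) (ball 0 r))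
    (hJ1 : ∀ z ∈ ball (0 : ℂ) r, ∀ w ∈ ball (0 : ℂ) r,
      ∑ i, (w * deriv (A i) z + cj (A i) w + c i z) ^ 2 = 0)
    (hJ2 : ∀ z ∈ ball (0 : ℂ) r, ∀ w ∈ ball (0 : ℂ) r,
      ∑ i, (w * deriv (A i) z + cj (A i) w + c i z) *
        (z * cj (deriv (A i)) w + A i z + cj (c i) w) = 2)

include hr hA hc hJ1

theorem cross (n : ℕ) (hn : 2 ≤ n) :
    ∑ i, conj (iteratedDeriv (n + 1) (A i) 0) * iteratedDeriv (n - 1) (c i) 0
      = -(n + 1) * (SA A n : ℂ) := by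
  have h := X1 hr hA hc hJ1 (n - 1) (n + 1) (by omega) (by omega)
  rw [Finset.sum_add_distrib] at h
  have e : ∑ i, ((n + 1 : ℕ) : ℂ) * conj (iteratedDeriv (n + 1 - 1) (A i) 0)
      * iteratedDeriv (n - 1 + 1) (A i) 0 = (n + 1) * (SA A n : ℂ) := by
    rw [SA_coe, Finset.mul_sum]
    refine Finset.sum_congr rfl fun i _ => ?_
    have h1 : n - 1 + 1 = n := by omega
    rw [h1, Nat.add_sub_cancel]
    push_cast; ring
  rw [e] at h
  linear_combination h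

theorem N2 (n : ℕ) (hn : 2 ≤ n) :
    (((n : ℝ) + 1) * SA A n) ^ 2 ≤ SA c (n - 1) * SA A (n + 1) := by
  have h := cross hr hA hc hJ1 n hn
  have h1 : ((n : ℝ) + 1) * SA A n
      ≤ ∑ i, ‖iteratedDeriv (n + 1) (A i) 0‖ * ‖iteratedDeriv (n - 1) (c i) 0‖ := by
    have h2 : ‖∑ i, conj (iteratedDeriv (n + 1) (A i) 0) * iteratedDeriv (n - 1) (c i) 0‖
        = ((n : ℝ) + 1) * SA A n := by
      rw [h]
      have : -((n : ℂ) + 1) * (SA A n : ℂ) = ((-(((n : ℝ) + 1) * SA A n) : ℝ) : ℂ) := by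
        push_cast; ring
      rw [this, Complex.norm_real, norm_neg, Real.norm_eq_abs, abs_of_nonneg]
      have := SA_nonneg A n
      positivity
    rw [← h2]
    refine (norm_sum_le _ _).trans (le_of_eq ?_)
    refine Finset.sum_congr rfl fun i _ => ?_
    rw [norm_mul, RCLike.norm_conj]
  have h0 : 0 ≤ ((n : ℝ) + 1) * SA A n := by
    have := SA_nonneg A n
    positivity
  calc (((n : ℝ) + 1) * SA A n) ^ 2
      ≤ (∑ i, ‖iteratedDeriv (n + 1) (A i) 0‖ * ‖iteratedDeriv (n - 1) (c i) 0‖) ^ 2 := by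
        gcongr
    _ ≤ (∑ i, ‖iteratedDeriv (n + 1) (A i) 0‖ ^ 2) * ∑ i, ‖iteratedDeriv (n - 1) (c i) 0‖ ^ 2 :=
        Finset.sum_mul_sq_le_sq_mul_sq _ _ _
    _ = SA c (n - 1) * SA A (n + 1) := by
        unfold SA; ring

include hJ2

theorem N1 (n : ℕ) (hn : 2 ≤ n) : SA c n = ((n : ℝ) ^ 2 + 2 * n - 1) * SA A n := by
  have h := cross hr hA hc hJ1 n hn
  have h' : ∑ i, conj (iteratedDeriv (n - 1) (c i) 0) * iteratedDeriv (n + 1) (A i) 0
      = -(n + 1) * (SA A n : ℂ) := by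
    have h3 := congrArg conj h
    rw [map_sum, map_mul, Complex.conj_ofReal] at h3
    have e1 : conj (-((n : ℂ) + 1)) = -((n : ℂ) + 1) := by
      rw [map_neg, map_add, map_one, Complex.conj_natCast]
    rw [e1] at h3
    rw [← h3]
    refine Finset.sum_congr rfl fun i _ => ?_
    rw [map_mul, Complex.conj_conj]; ring
  have h2 := X2 hr hA hc hJ2 n n hn hn
  have e : ∑ i, ((n : ℂ) * (n * (conj (iteratedDeriv n (A i) 0) * iteratedDeriv n (A i) 0)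
            + conj (iteratedDeriv (n - 1) (c i) 0) * iteratedDeriv (n + 1) (A i) 0)
          + conj (iteratedDeriv n (A i) 0) * iteratedDeriv n (A i) 0
          + n * (conj (iteratedDeriv (n + 1) (A i) 0) * iteratedDeriv (n - 1) (c i) 0)
          + conj (iteratedDeriv n (c i) 0) * iteratedDeriv n (c i) 0)
      = n * (n * (SA A n : ℂ) + -(n + 1) * (SA A n : ℂ)) + (SA A n : ℂ)
        + n * (-(n + 1) * (SA A n : ℂ)) + (SA c n : ℂ) := by
    rw [Finset.sum_add_distrib, Finset.sum_add_distrib, Finset.sum_add_distrib,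
      ← Finset.mul_sum, Finset.sum_add_distrib, ← Finset.mul_sum, ← Finset.mul_sum, h, h',
      ← SA_coe, ← SA_coe]
  rw [e] at h2
  have h4 : ((SA c n : ℝ) : ℂ) = ((((n : ℝ) ^ 2 + 2 * n - 1) * SA A n : ℝ) : ℂ) := by
    push_cast
    linear_combination h2
  exact_mod_cast h4

theorem N3 (n : ℕ) (hn : 3 ≤ n) :
    ((n : ℝ) + 1) ^ 2 * SA A n ^ 2 ≤ ((n : ℝ) ^ 2 - 2) * SA A (n - 1) * SA A (n + 1) := by
  have h := N2 hr hA hc hJ1 n (by omega)
  have h1 := N1 hr hA hc hJ1 hJ2 (n - 1) (by omega)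
  rw [h1, mul_pow] at h
  have e : ((n - 1 : ℕ) : ℝ) = (n : ℝ) - 1 := by
    rw [Nat.cast_sub (by omega)]; simp
  rw [e] at h
  calc _ ≤ _ := h
    _ = _ := by ring

/-- The normalised sequence. -/
noncomputable def EE (A : ι → ℂ → ℂ) (n : ℕ) : ℝ := SA A (n + 1) / (n.factorial : ℝ) ^ 2

omit hr hA hc hJ1 hJ2 in
theorem EE_nonneg (A : ι → ℂ → ℂ) (n : ℕ) : 0 ≤ EE A n := by
  unfold EE; have := SA_nonneg A (n + 1); positivity

theorem EE_conv (n : ℕ) (hn : 1 ≤ n) : EE A (n + 1) ^ 2 ≤ EE A n * EE A (n + 2) := by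
  have h := N3 hr hA hc hJ1 hJ2 (n + 2) (by omega)
  have e1 : n + 2 - 1 = n + 1 := by omega
  rw [e1] at h
  unfold EE
  have f1 : ((n + 1).factorial : ℝ) = (n + 1) * n.factorial := by
    rw [Nat.factorial_succ]; push_cast; ring
  have f2 : ((n + 2).factorial : ℝ) = (n + 2) * ((n + 1) * n.factorial) := by
    rw [Nat.factorial_succ, Nat.factorial_succ]; push_cast; ring
  rw [f1, f2]
  have hf : (0 : ℝ) < n.factorial := by positivity
  set F : ℝ := (n.factorial : ℝ) with hF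
  have g1 : n + 1 + 1 = n + 2 := rfl
  have g2 : n + 2 + 1 = n + 3 := rfl
  rw [g1, g2] at *
  set x := SA A (n + 1) with hx
  set y := SA A (n + 2) with hy
  set t := SA A (n + 3) with ht
  have hx0 : 0 ≤ x := SA_nonneg _ _
  have hy0 : 0 ≤ y := SA_nonneg _ _
  have ht0 : 0 ≤ t := SA_nonneg _ _
  push_cast at h
  have hn0 : (0 : ℝ) ≤ n := Nat.cast_nonneg n
  rw [div_pow, div_mul_div_comm, div_le_div_iff₀ (by positivity) (by positivity)]
  have key : ((n : ℝ) + 3) ^ 2 * y ^ 2 * ((n : ℝ) + 1) ^ 2 ≤ (((n : ℝ) + 2) ^ 2 - 2) * x * t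
      * ((n : ℝ) + 1) ^ 2 := by
    have h' : ((n : ℝ) + 3) ^ 2 * y ^ 2 ≤ (((n : ℝ) + 2) ^ 2 - 2) * x * t := by
      calc _ = ((n : ℝ) + 2 + 1) ^ 2 * y ^ 2 := by ring
        _ ≤ _ := h
    gcongr
  -- `N^2 (N^2-2) ≤ (N^2-1)^2` with `N = n + 2`
  have hN : ((n : ℝ) + 2) ^ 2 * (((n : ℝ) + 2) ^ 2 - 2) ≤ (((n : ℝ) + 3) * ((n : ℝ) + 1)) ^ 2 := by
    nlinarith
  have hN3 : (0 : ℝ) < (((n : ℝ) + 3) * ((n : ℝ) + 1)) ^ 2 := by positivity
  -- y^2 * (n+2)^2 ≤ x t (n+1)^2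
  have goal1 : y ^ 2 * ((n : ℝ) + 2) ^ 2 ≤ x * t * ((n : ℝ) + 1) ^ 2 := by
    have h1 : (((n : ℝ) + 3) * ((n : ℝ) + 1)) ^ 2 * (y ^ 2 * ((n : ℝ) + 2) ^ 2)
        ≤ (((n : ℝ) + 3) * ((n : ℝ) + 1)) ^ 2 * (x * t * ((n : ℝ) + 1) ^ 2) := by
      calc (((n : ℝ) + 3) * ((n : ℝ) + 1)) ^ 2 * (y ^ 2 * ((n : ℝ) + 2) ^ 2)
          = (((n : ℝ) + 3) ^ 2 * y ^ 2 * ((n : ℝ) + 1) ^ 2) * ((n : ℝ) + 2) ^ 2 := by ring
        _ ≤ ((((n : ℝ) + 2) ^ 2 - 2) * x * t * ((n : ℝ) + 1) ^ 2) * ((n : ℝ) + 2) ^ 2 := by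
            gcongr
        _ = (((n : ℝ) + 2) ^ 2 * (((n : ℝ) + 2) ^ 2 - 2)) * (x * t * ((n : ℝ) + 1) ^ 2) := by
            ring
        _ ≤ _ := by gcongr
    exact le_of_mul_le_mul_left h1 hN3
  calc y ^ 2 * (F ^ 2 * (((n : ℝ) + 2) * (((n : ℝ) + 1) * F)) ^ 2)
      = (y ^ 2 * ((n : ℝ) + 2) ^ 2) * (((n : ℝ) + 1) ^ 2 * F ^ 4) := by ring
    _ ≤ (x * t * ((n : ℝ) + 1) ^ 2) * (((n : ℝ) + 1) ^ 2 * F ^ 4) := by gcongr
    _ = x * t * (((((n : ℝ) + 1) * F) ^ 2) ^ 2) := by ring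

omit hJ2 in
theorem EE_pos_succ (n : ℕ) (hn : 1 ≤ n) (h : 0 < EE A n) : 0 < EE A (n + 1) := by
  have h1 := N2 hr hA hc hJ1 (n + 1) (by omega)
  have hx : 0 < SA A (n + 1) := by
    unfold EE at h
    by_contra hcon
    have : SA A (n + 1) = 0 := le_antisymm (not_lt.1 hcon) (SA_nonneg _ _)
    rw [this] at h; simp at h
  have hy : 0 < SA A (n + 1 + 1) := by
    by_contra hcon
    have : SA A (n + 1 + 1) = 0 := le_antisymm (not_lt.1 hcon) (SA_nonneg _ _)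
    rw [this, mul_zero] at h1
    have : 0 < ((((n + 1 : ℕ) : ℝ) + 1) * SA A (n + 1)) ^ 2 := by positivity
    linarith
  unfold EE
  positivity

end

end Pool.Agent.Lib.MP_3248c9_gt
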