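import Mathlib

/-!
# Polarisation of real-analytic identities on a disc

If `F` is holomorphic on `D × D`, `D = ball 0 r`, and `F (z, conj z) = 0` for all `z ∈ D`,
then `F = 0` on `D × D`.
-/

set_option autoImplicit false

open Metric Filter Topology Complex
open scoped ComplexConjugate

namespace Pool.Agent.Lib.MP_3248c9_gt

/-- A holomorphic function on a convex neighbourhood of `0` which vanishes on the real points
vanishes. -/
theorem ident_real {Ω : Set ℂ} (hΩ : IsOpen Ω) (hc : Convex ℝ Ω) (h0 : (0 : ℂ) ∈ Ω)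
    {g : ℂ → ℂ} (hg : DifferentiableOn ℂ g Ω) (hz : ∀ s : ℝ, (s : ℂ) ∈ Ω → g s = 0) :
    ∀ s ∈ Ω, g s = 0 := by
  have han : AnalyticOnNhd ℂ g Ω := hg.analyticOnNhd hΩ
  have hpre : IsPreconnected Ω := hc.isPreconnected
  have hfreq : ∃ᶠ z in 𝓝[≠] (0 : ℂ), g z = 0 := by
    have ht : Tendsto (fun n : ℕ => (((1 : ℝ) / ((n : ℝ) + 1) : ℝ) : ℂ)) atTop (𝓝[≠] 0) := by
      rw [tendsto_nhdsWithin_iff]
      constructor
      · have := (continuous_ofReal.tendsto (0 : ℝ)).comp
          (tendsto_one_div_add_atTop_nhds_zero_nat (𝕜 := ℝ))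
        simpa [Function.comp_def] using this
      · refine Eventually.of_forall fun n => ?_
        simp only [Set.mem_compl_iff, Set.mem_singleton_iff, ofReal_eq_zero]
        positivity
    have hev : ∀ᶠ n : ℕ in atTop, g (((1 : ℝ) / ((n : ℝ) + 1) : ℝ) : ℂ) = 0 := by
      have h1 : ∀ᶠ z in 𝓝[≠] (0 : ℂ), z ∈ Ω := by
        exact mem_nhdsWithin_of_mem_nhds (hΩ.mem_nhds h0)
      filter_upwards [ht.eventually h1] with n hn
      exact hz _ hn
    exact ht.frequently hev.frequently
  intro s hs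
  exact han.eqOn_zero_of_preconnected_of_frequently_eq_zero hpre h0 hfreq hs

theorem polar {r : ℝ} {F : ℂ × ℂ → ℂ}
    (hF : DifferentiableOn ℂ F (ball 0 r ×ˢ ball 0 r))
    (h0 : ∀ z ∈ ball (0 : ℂ) r, F (z, conj z) = 0) :
    ∀ z ∈ ball (0 : ℂ) r, ∀ w ∈ ball (0 : ℂ) r, F (z, w) = 0 := by
  have hstepA : ∀ t : ℝ, ∀ s : ℂ, s + t * I ∈ ball (0 : ℂ) r → s - t * I ∈ ball (0 : ℂ) r →
      F (s + t * I, s - t * I) = 0 := by
    intro t s hs1 hs2
    set Ω : Set ℂ := {s | s + t * I ∈ ball (0 : ℂ) r} ∩ {s | s - t * I ∈ ball (0 : ℂ) r} with hΩ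
    have hopen : IsOpen Ω := by
      refine IsOpen.inter ?_ ?_
      · exact isOpen_ball.preimage (by fun_prop)
      · exact isOpen_ball.preimage (by fun_prop)
    have hconv : Convex ℝ Ω := by
      have e1 : {s : ℂ | s + t * I ∈ ball (0 : ℂ) r} = ball (-(t * I)) r := by
        ext s; simp [mem_ball, dist_eq_norm]
      have e2 : {s : ℂ | s - t * I ∈ ball (0 : ℂ) r} = ball (t * I) r := by
        ext s; simp [mem_ball, dist_eq_norm]
      rw [hΩ, e1, e2]
      exact (convex_ball _ _).inter (convex_ball _ _)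
    have htr : ‖(t : ℂ) * I‖ < r := by
      have h1 : ‖s + t * I‖ < r := by simpa using hs1
      have h2 : ‖s - t * I‖ < r := by simpa using hs2
      have h3 : ‖(2 : ℂ) * (t * I)‖ ≤ ‖s + t * I‖ + ‖s - t * I‖ := by
        have : (2 : ℂ) * (t * I) = (s + t * I) - (s - t * I) := by ring
        rw [this]; exact norm_sub_le _ _
      rw [norm_mul] at h3
      have : ‖(2 : ℂ)‖ = 2 := by simp
      rw [this] at h3
      linarith
    have h0Ω : (0 : ℂ) ∈ Ω := by
      constructor
      · simpa using htr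
      · simp only [Set.mem_ofPred_eq, zero_sub, mem_ball, dist_zero_right, norm_neg]; exact htr
    have hd : DifferentiableOn ℂ (fun s : ℂ => F (s + t * I, s - t * I)) Ω := by
      refine hF.comp (f := fun s : ℂ => (s + t * I, s - t * I)) ?_ ?_
      · fun_prop
      · intro x hx; exact ⟨hx.1, hx.2⟩
    refine ident_real hopen hconv h0Ω hd ?_ s ⟨hs1, hs2⟩
    intro x hx
    have := h0 (x + t * I) hx.1
    have hcj : conj ((x : ℂ) + t * I) = x - t * I := by
      simp [sub_eq_add_neg]
    rw [hcj] at this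
    exact this
  intro z hz w hw
  set s : ℂ := (z + w) / 2 with hs
  set Ω : Set ℂ := {t | s + t * I ∈ ball (0 : ℂ) r} ∩ {t | s - t * I ∈ ball (0 : ℂ) r} with hΩ
  have hopen : IsOpen Ω := by
    refine IsOpen.inter ?_ ?_
    · exact isOpen_ball.preimage (by fun_prop)
    · exact isOpen_ball.preimage (by fun_prop)
  have hconv : Convex ℝ Ω := by
    have e1 : {t : ℂ | s + t * I ∈ ball (0 : ℂ) r} = ball (s * I) r := by
      ext t
      simp only [Set.mem_ofPred_eq, mem_ball, dist_eq_norm]
      have : t - s * I = -I * (s + t * I) := by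
        ring_nf; simp [I_sq]
      rw [this, norm_mul]; simp
    have e2 : {t : ℂ | s - t * I ∈ ball (0 : ℂ) r} = ball (-(s * I)) r := by
      ext t
      simp only [Set.mem_ofPred_eq, mem_ball, dist_eq_norm]
      have : t - -(s * I) = I * (s - t * I) := by
        ring_nf; simp [I_sq]
      rw [this, norm_mul]; simp
    rw [hΩ, e1, e2]
    exact (convex_ball _ _).inter (convex_ball _ _)
  have hsD : ‖s‖ < r := by
    have h1 : ‖z‖ < r := by simpa using hz
    have h2 : ‖w‖ < r := by simpa using hw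
    have h3 : ‖s‖ = ‖z + w‖ / 2 := by rw [hs, norm_div]; simp
    have := norm_add_le z w
    rw [h3]; linarith
  have h0Ω : (0 : ℂ) ∈ Ω := by
    constructor <;> simpa using hsD
  have hd : DifferentiableOn ℂ (fun t : ℂ => F (s + t * I, s - t * I)) Ω := by
    refine hF.comp (f := fun t : ℂ => (s + t * I, s - t * I)) ?_ ?_
    · fun_prop
    · intro x hx; exact ⟨hx.1, hx.2⟩
  have key := ident_real hopen hconv h0Ω hd (fun t ht => hstepA t s ht.1 ht.2)
    ((w - z) / 2 * I) ?_
  · have e1 : s + (w - z) / 2 * I * I = z := by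
      rw [hs, mul_assoc, I_mul_I]; ring
    have e2 : s - (w - z) / 2 * I * I = w := by
      rw [hs, mul_assoc, I_mul_I]; ring
    simpa [e1, e2] using key
  · have e1 : s + (w - z) / 2 * I * I = z := by
      rw [hs, mul_assoc, I_mul_I]; ring
    have e2 : s - (w - z) / 2 * I * I = w := by
      rw [hs, mul_assoc, I_mul_I]; ring
    constructor
    · simp only [Set.mem_ofPred_eq]; rw [e1]; exact hz
    · simp only [Set.mem_ofPred_eq]; rw [e2]; exact hw

end Pool.Agent.Lib.MP_3248c9_gt
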