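import Pool.Agent.Lib.MP_3248c9_gt.Core

/-!
# Representation of biharmonic functions on a disc
-/

set_option autoImplicit false

open Metric Filter Topology Complex InnerProductSpace
open scoped ComplexConjugate ContDiff Laplacian

namespace Pool.Agent.Lib.MP_3248c9_gt

/-- Directional derivative. -/
noncomputable def dd (v : ℂ) (x : ℂ → ℝ) : ℂ → ℝ := fun z => fderiv ℝ x z v

/-- The Laplacian, as the sum of the second partial derivatives. -/
noncomputable def Lap (x : ℂ → ℝ) : ℂ → ℝ := fun z => dd 1 (dd 1 x) z + dd I (dd I x) z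

theorem dd_smooth {v : ℂ} {x : ℂ → ℝ} {z : ℂ} (hx : ContDiffAt ℝ ∞ x z) :
    ContDiffAt ℝ ∞ (dd v x) z := by
  unfold dd
  have h1 : ContDiffAt ℝ ∞ (fderiv ℝ x) z := hx.fderiv_right (m := ∞) (by simp)
  exact h1.clm_apply contDiffAt_const

theorem Lap_smooth {x : ℂ → ℝ} {z : ℂ} (hx : ContDiffAt ℝ ∞ x z) :
    ContDiffAt ℝ ∞ (Lap x) z :=
  (dd_smooth (dd_smooth hx)).add (dd_smooth (dd_smooth hx))

theorem dd_dd {v w : ℂ} {x : ℂ → ℝ} {z : ℂ} (hx : ContDiffAt ℝ ∞ x z) :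
    dd w (dd v x) z = fderiv ℝ (fderiv ℝ x) z w v := by
  have h1 : ContDiffAt ℝ ∞ (fderiv ℝ x) z := hx.fderiv_right (m := ∞) (by simp)
  have h2 : DifferentiableAt ℝ (fderiv ℝ x) z := h1.differentiableAt (by simp)
  unfold dd
  rw [fderiv_clm_apply h2 (by fun_prop)]
  simp

theorem dd_comm {v w : ℂ} {x : ℂ → ℝ} {z : ℂ} (hx : ContDiffAt ℝ ∞ x z) :
    dd w (dd v x) z = dd v (dd w x) z := by
  rw [dd_dd hx, dd_dd hx]
  exact (hx.of_le (m := 2) ENat.LEInfty.out).isSymmSndFDerivAt (by simp) _ _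

theorem Lap_eq {x : ℂ → ℝ} {z : ℂ} (hx : ContDiffAt ℝ ∞ x z) : Lap x z = (Δ x) z := by
  rw [laplacian_eq_iteratedFDeriv_complexPlane]
  simp only [iteratedFDeriv_two_apply]
  unfold Lap
  rw [dd_dd hx, dd_dd hx]
  simp

theorem rep {r : ℝ} {x : ℂ → ℝ} (hx : ∀ z ∈ ball (0 : ℂ) r, ContDiffAt ℝ ∞ x z)
    (hb : ∀ z ∈ ball (0 : ℂ) r, Lap (Lap x) z = 0) :
    ∃ A c : ℂ → ℂ, DifferentiableOn ℂ A (ball 0 r) ∧ DifferentiableOn ℂ c (ball 0 r) ∧
      ∀ z ∈ ball (0 : ℂ) r,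
        (dd 1 x z : ℂ) - I * dd I x z = conj z * deriv A z + conj (A z) + c z := by
  have hharm : HarmonicOnNhd (Lap x) (ball 0 r) := by
    intro z hz
    refine ⟨(Lap_smooth (hx z hz)).of_le ENat.LEInfty.out, ?_⟩
    filter_upwards [isOpen_ball.mem_nhds hz] with w hw
    rw [← Lap_eq (Lap_smooth (hx w hw)), hb w hw]; rfl
  obtain ⟨F, hF, hFre⟩ := HarmonicOnNhd.exists_analyticOnNhd_ball_re_eq hharm
  have hF' : DifferentiableOn ℂ (fun z => F z / 4) (ball 0 r) :=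
    hF.differentiableOn.div_const 4
  obtain ⟨A, hA⟩ := hF'.isExactOn_ball
  have hAd : DifferentiableOn ℂ A (ball 0 r) := fun z hz =>
    (hA z hz).differentiableAt.differentiableWithinAt
  have hderiv : ∀ z ∈ ball (0 : ℂ) r, deriv A z = F z / 4 := fun z hz => (hA z hz).deriv
  refine ⟨A, fun z => ((dd 1 x z : ℂ) - I * dd I x z) - conj z * deriv A z - conj (A z), hAd, ?_,
    fun z _ => by ring⟩
  intro z hz
  refine DifferentiableAt.differentiableWithinAt ?_
  have hloc : (fun z => ((dd 1 x z : ℂ) - I * dd I x z) - conj z * deriv A z - conj (A z))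
      =ᶠ[𝓝 z] fun z => ((dd 1 x z : ℂ) - I * dd I x z) - conj z * (F z / 4) - conj (A z) := by
    filter_upwards [isOpen_ball.mem_nhds hz] with w hw
    rw [hderiv w hw]
  rw [hloc.differentiableAt_iff]
  -- real derivatives
  have hx1 : HasFDerivAt (dd 1 x) (fderiv ℝ (dd 1 x) z) z :=
    ((dd_smooth (hx z hz)).differentiableAt (by simp)).hasFDerivAt
  have hxI : HasFDerivAt (dd I x) (fderiv ℝ (dd I x) z) z :=
    ((dd_smooth (hx z hz)).differentiableAt (by simp)).hasFDerivAt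
  have hc1 : HasFDerivAt (fun z => (dd 1 x z : ℂ)) (ofRealCLM.comp (fderiv ℝ (dd 1 x) z)) z :=
    ofRealCLM.hasFDerivAt.comp z hx1
  have hcI : HasFDerivAt (fun z => (dd I x z : ℂ)) (ofRealCLM.comp (fderiv ℝ (dd I x) z)) z :=
    ofRealCLM.hasFDerivAt.comp z hxI
  have hFd : DifferentiableAt ℂ (fun z => F z / 4) z :=
    hF'.differentiableAt (isOpen_ball.mem_nhds hz)
  set F' : ℂ := deriv (fun z => F z / 4) z with hF'def
  have hFr : HasFDerivAt (fun z => F z / 4) ((ContinuousLinearMap.toSpanSingleton ℂ F').restrictScalars ℝ) z := by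
    exact hFd.hasDerivAt.hasFDerivAt.restrictScalars ℝ
  have hAr : HasFDerivAt A ((ContinuousLinearMap.toSpanSingleton ℂ (F z / 4)).restrictScalars ℝ) z := by
    exact (hA z hz).hasFDerivAt.restrictScalars ℝ
  have hAc : HasFDerivAt (fun z => conj (A z)) ((conjCLE : ℂ →L[ℝ] ℂ).comp
      ((ContinuousLinearMap.toSpanSingleton ℂ (F z / 4)).restrictScalars ℝ)) z :=
    (conjCLE : ℂ →L[ℝ] ℂ).hasFDerivAt.comp z hAr
  have hcj : HasFDerivAt (fun z : ℂ => conj z) (conjCLE : ℂ →L[ℝ] ℂ) z :=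
    (conjCLE : ℂ →L[ℝ] ℂ).hasFDerivAt
  have hall := ((hc1.sub (hcI.const_mul I)).sub (hcj.mul hFr)).sub hAc
  rw [differentiableAt_complex_iff_differentiableAt_real]
  refine ⟨hall.differentiableAt, ?_⟩
  have hfd : fderiv ℝ (fun z => ((dd 1 x z : ℂ) - I * dd I x z) - conj z * (F z / 4)
      - conj (A z)) z = _ := hall.fderiv
  rw [hfd]
  have h11 : fderiv ℝ (dd 1 x) z 1 = dd 1 (dd 1 x) z := rfl
  have h1I : fderiv ℝ (dd 1 x) z I = dd I (dd 1 x) z := rfl
  have hI1 : fderiv ℝ (dd I x) z 1 = dd I (dd 1 x) z := dd_comm (v := I) (w := 1) (hx z hz)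
  have hII : fderiv ℝ (dd I x) z I = dd I (dd I x) z := rfl
  have hLap : (F z).re = dd 1 (dd 1 x) z + dd I (dd I x) z := hFre hz
  have hre : F z + conj (F z) = 2 * ((dd 1 (dd 1 x) z : ℂ) + (dd I (dd I x) z : ℂ)) := by
    rw [Complex.add_conj, hLap]; push_cast; ring
  simp only [sub_apply, ContinuousLinearMap.comp_apply, ofRealCLM_apply, smul_apply,
    smul_eq_mul, h11, h1I, hI1, hII, add_apply,
    ContinuousLinearMap.coe_restrictScalars', ContinuousLinearMap.toSpanSingleton_apply,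
    ContinuousLinearEquiv.coe_coe, conjCLE_apply, map_mul, conj_I, map_one, map_div₀, one_mul]
  have h4 : conj (4 : ℂ) = 4 := Complex.conj_ofNat 4
  rw [h4]
  ring_nf
  simp only [I_sq]
  linear_combination (I / 2) * hre

end Pool.Agent.Lib.MP_3248c9_gt
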