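import Pool.Agent.Lib.MP_3248c9_gt.Polar

/-!
# The polarised identities
-/

set_option autoImplicit false

open Metric Filter Topology Complex Polynomial
open scoped ComplexConjugate

namespace Pool.Agent.Lib.MP_3248c9_gt

/-- `cj f w = conj (f (conj w))`, the reflected function. -/
noncomputable def cj (f : ℂ → ℂ) : ℂ → ℂ := fun w => conj (f (conj w))

theorem conj_mem_ball {r : ℝ} {w : ℂ} (hw : w ∈ ball (0 : ℂ) r) : conj w ∈ ball (0 : ℂ) r := by
  simpa using hw

theorem cj_differentiableOn {r : ℝ} {f : ℂ → ℂ} (hf : DifferentiableOn ℂ f (ball 0 r)) :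
    DifferentiableOn ℂ (cj f) (ball 0 r) := by
  intro w hw
  have h := ((hf).differentiableAt (isOpen_ball.mem_nhds (conj_mem_ball hw))).conj_conj
  rw [Complex.conj_conj] at h
  exact h.differentiableWithinAt

theorem deriv_cj (f : ℂ → ℂ) : deriv (cj f) = cj (deriv f) := by
  have := deriv_conj_conj (𝕜 := ℂ) (f := f)
  exact this

theorem iteratedDeriv_cj (n : ℕ) (f : ℂ → ℂ) : iteratedDeriv n (cj f) = cj (iteratedDeriv n f) := by
  induction n generalizing f with
  | zero => simp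
  | succ n ih => rw [iteratedDeriv_succ', iteratedDeriv_succ', deriv_cj, ih]

theorem iteratedDeriv_cj_zero (n : ℕ) (f : ℂ → ℂ) :
    iteratedDeriv n (cj f) 0 = conj (iteratedDeriv n f 0) := by
  rw [iteratedDeriv_cj]; simp [cj]

variable {ι : Type*} [Fintype ι]

/-- The polarised first identity. -/
theorem J1 {r : ℝ} {A c : ι → ℂ → ℂ} (hA : ∀ i, DifferentiableOn ℂ (A i) (ball 0 r))
    (hc : ∀ i, DifferentiableOn ℂ (c i) (ball 0 r))
    (h1 : ∀ z ∈ ball (0 : ℂ) r,
      ∑ i, (conj z * deriv (A i) z + conj (A i z) + c i z) ^ 2 = 0) :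
    ∀ z ∈ ball (0 : ℂ) r, ∀ w ∈ ball (0 : ℂ) r,
      ∑ i, (w * deriv (A i) z + cj (A i) w + c i z) ^ 2 = 0 := by
  have hd : ∀ i, DifferentiableOn ℂ (deriv (A i)) (ball 0 r) := fun i =>
    (hA i).deriv isOpen_ball
  refine polar (F := fun p : ℂ × ℂ =>
    ∑ i, (p.2 * deriv (A i) p.1 + cj (A i) p.2 + c i p.1) ^ 2) ?_ ?_
  · refine DifferentiableOn.fun_sum fun i _ => ?_
    have e1 : DifferentiableOn ℂ (fun p : ℂ × ℂ => deriv (A i) p.1) (ball 0 r ×ˢ ball 0 r) :=
      (hd i).comp differentiableOn_fst (fun p hp => hp.1)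
    have e2 : DifferentiableOn ℂ (fun p : ℂ × ℂ => cj (A i) p.2) (ball 0 r ×ˢ ball 0 r) :=
      (cj_differentiableOn (hA i)).comp differentiableOn_snd (fun p hp => hp.2)
    have e3 : DifferentiableOn ℂ (fun p : ℂ × ℂ => c i p.1) (ball 0 r ×ˢ ball 0 r) :=
      (hc i).comp differentiableOn_fst (fun p hp => hp.1)
    exact (((differentiableOn_snd.mul e1).add e2).add e3).pow 2
  · intro z hz
    simpa [cj] using h1 z hz

/-- The polarised second identity. -/
theorem J2 {r : ℝ} {A c : ι → ℂ → ℂ} (hA : ∀ i, DifferentiableOn ℂ (A i) (ball 0 r))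
    (hc : ∀ i, DifferentiableOn ℂ (c i) (ball 0 r))
    (h2 : ∀ z ∈ ball (0 : ℂ) r,
      ∑ i, (conj z * deriv (A i) z + conj (A i z) + c i z) *
        conj (conj z * deriv (A i) z + conj (A i z) + c i z) = 2) :
    ∀ z ∈ ball (0 : ℂ) r, ∀ w ∈ ball (0 : ℂ) r,
      ∑ i, (w * deriv (A i) z + cj (A i) w + c i z) *
        (z * cj (deriv (A i)) w + A i z + cj (c i) w) = 2 := by
  have hd : ∀ i, DifferentiableOn ℂ (deriv (A i)) (ball 0 r) := fun i =>
    (hA i).deriv isOpen_ball
  have key := polar (r := r) (F := fun p : ℂ × ℂ =>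
    ∑ i, (p.2 * deriv (A i) p.1 + cj (A i) p.2 + c i p.1) *
      (p.1 * cj (deriv (A i)) p.2 + A i p.1 + cj (c i) p.2) - 2) ?_ ?_
  · intro z hz w hw
    have := key z hz w hw
    simp only at this
    linear_combination this
  · refine DifferentiableOn.sub_const (DifferentiableOn.fun_sum fun i _ => ?_) _
    have e1 : DifferentiableOn ℂ (fun p : ℂ × ℂ => deriv (A i) p.1) (ball 0 r ×ˢ ball 0 r) :=
      (hd i).comp differentiableOn_fst (fun p hp => hp.1)
    have e2 : DifferentiableOn ℂ (fun p : ℂ × ℂ => cj (A i) p.2) (ball 0 r ×ˢ ball 0 r) :=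
      (cj_differentiableOn (hA i)).comp differentiableOn_snd (fun p hp => hp.2)
    have e3 : DifferentiableOn ℂ (fun p : ℂ × ℂ => c i p.1) (ball 0 r ×ˢ ball 0 r) :=
      (hc i).comp differentiableOn_fst (fun p hp => hp.1)
    have e4 : DifferentiableOn ℂ (fun p : ℂ × ℂ => cj (deriv (A i)) p.2)
        (ball 0 r ×ˢ ball 0 r) :=
      (cj_differentiableOn (hd i)).comp differentiableOn_snd (fun p hp => hp.2)
    have e5 : DifferentiableOn ℂ (fun p : ℂ × ℂ => A i p.1) (ball 0 r ×ˢ ball 0 r) :=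
      (hA i).comp differentiableOn_fst (fun p hp => hp.1)
    have e6 : DifferentiableOn ℂ (fun p : ℂ × ℂ => cj (c i) p.2) (ball 0 r ×ˢ ball 0 r) :=
      (cj_differentiableOn (hc i)).comp differentiableOn_snd (fun p hp => hp.2)
    exact (((differentiableOn_snd.mul e1).add e2).add e3).mul
      (((differentiableOn_fst.mul e4).add e5).add e6)
  · intro z hz
    have := h2 z hz
    simp only [cj, map_add, map_mul, Complex.conj_conj] at this ⊢
    rw [this]; simp

end Pool.Agent.Lib.MP_3248c9_gt
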